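import Pool.Agent.K3h11.Nar.Split
import Pool.Agent.Y772.NI.Base
import Pool.Agent.Y772.NI.Crit
import Pool.Agent.Y825.RK.Norming

/-!
# Narrow operators on `L_p(μ)` and the narrow numerical index
-/

set_option autoImplicit false
set_option linter.unusedSectionVars false

open MeasureTheory Set Filter Topology
open scoped ENNReal

namespace Pool.Agent.K3h11.Nar

/-- A measure is atomless when every measurable set of positive measure contains a measurable
subset of strictly smaller positive measure. -/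
def Atomless {Ω : Type} [MeasurableSpace Ω] (μ : Measure Ω) : Prop :=
  ∀ A : Set Ω, MeasurableSet A → 0 < μ A → ∃ B, MeasurableSet B ∧ B ⊆ A ∧ 0 < μ B ∧ μ B < μ A

variable {Ω : Type} [MeasurableSpace Ω] {μ : Measure Ω} [IsFiniteMeasure μ]
  {p : ℝ≥0∞} [Fact (1 ≤ p)]

/-- The indicator function of a measurable set as an element of the real space `L_p(μ)`. -/
noncomputable def ind (p : ℝ≥0∞) (μ : Measure Ω) [IsFiniteMeasure μ] {A : Set Ω}
    (hA : MeasurableSet A) : Lp ℝ p μ :=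
  indicatorConstLp p hA (measure_ne_top μ A) 1

/-- A bounded operator `T` on the real space `L_p(μ)` is narrow when every measurable set `A`
splits, for every `ε > 0`, into measurable sets `B` and `A \ B` of equal measure with
`‖T (1_B - 1_{A \ B})‖ < ε`. -/
def IsNarrow (T : Lp ℝ p μ →L[ℝ] Lp ℝ p μ) : Prop :=
  ∀ A : Set Ω, MeasurableSet A → ∀ ε : ℝ, 0 < ε →
    ∃ (B : Set Ω) (hB : MeasurableSet B) (hC : MeasurableSet (A \ B)),
      B ⊆ A ∧ μ B = μ (A \ B) ∧ ‖T (ind p μ hB - ind p μ hC)‖ < ε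

/-- The narrow numerical index of the real space `L_p(μ)`: the infimum of the numerical radii of
the narrow operators of norm one. -/
noncomputable def narrowIndex (p : ℝ≥0∞) [Fact (1 ≤ p)] (μ : Measure Ω) [IsFiniteMeasure μ] : ℝ :=
  sInf {r : ℝ | ∃ T : Lp ℝ p μ →L[ℝ] Lp ℝ p μ, ‖T‖ = 1 ∧ IsNarrow T ∧
    r = Pool.Agent.Y772.NI.numRadius ℝ T}

/-! ## Step functions -/

open Classical in
/-- the indicator of an arbitrary set (zero when it is not measurable) -/
noncomputable def indS (p : ℝ≥0∞) (μ : Measure Ω) [IsFiniteMeasure μ] (A : Set Ω) : Lp ℝ p μ :=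
  if h : MeasurableSet A then ind p μ h else 0

lemma indS_of {A : Set Ω} (h : MeasurableSet A) : indS p μ A = ind p μ h := by
  unfold indS; rw [dif_pos h]

lemma indS_ae {A : Set Ω} (h : MeasurableSet A) :
    indS p μ A =ᵐ[μ] A.indicator (fun _ => (1:ℝ)) := by
  rw [indS_of h]
  exact indicatorConstLp_coeFn

lemma additive_indS : Additive' (indS p μ) := by
  intro A B hA hB hAB
  rw [indS_of hA, indS_of hB, indS_of (hA.union hB)]
  unfold ind
  rw [indicatorConstLp_disjoint_union hA hB (measure_ne_top μ _) (measure_ne_top μ _) hAB]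

section Step

variable {κ : Type*} [Fintype κ]

/-- step functions -/
noncomputable def step (p : ℝ≥0∞) (μ : Measure Ω) [IsFiniteMeasure μ] (C : κ → Set Ω)
    (c : κ → ℝ) : Lp ℝ p μ := ∑ j, c j • indS p μ (C j)

lemma step_ae {C : κ → Set Ω} (hC : ∀ j, MeasurableSet (C j)) (c : κ → ℝ) :
    step p μ C c =ᵐ[μ] fun ω => ∑ j, c j * (C j).indicator (fun _ => (1:ℝ)) ω := by
  classical
  have key : ∀ s : Finset κ, (∑ j ∈ s, c j • indS p μ (C j) : Lp ℝ p μ) =ᵐ[μ]
      fun ω => ∑ j ∈ s, c j * (C j).indicator (fun _ => (1:ℝ)) ω := by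
    intro s
    induction s using Finset.induction_on with
    | empty =>
      simp only [Finset.sum_empty]
      exact Lp.coeFn_zero ℝ p μ
    | insert j s hj ih =>
      rw [Finset.sum_insert hj]
      filter_upwards [Lp.coeFn_add (c j • indS p μ (C j)) (∑ j ∈ s, c j • indS p μ (C j)), ih,
        Lp.coeFn_smul (c j) (indS p μ (C j)), indS_ae (p := p) (μ := μ) (hC j)] with ω h1 h2 h3 h4
      rw [h1, Pi.add_apply, h2, h3, Pi.smul_apply, h4, smul_eq_mul, Finset.sum_insert hj]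
  exact key Finset.univ

/-- a function of a disjoint sum of multiples of indicators -/
lemma sum_ind_apply {C : κ → Set Ω} (hd : Pairwise fun i j => Disjoint (C i) (C j)) (c : κ → ℝ)
    (φ : ℝ → ℝ) (h0 : φ 0 = 0) (ω : Ω) :
    φ (∑ j, c j * (C j).indicator (fun _ => (1:ℝ)) ω) =
      ∑ j, φ (c j) * (C j).indicator (fun _ => (1:ℝ)) ω := by
  classical
  by_cases h : ∃ j, ω ∈ C j
  · obtain ⟨j, hj⟩ := h
    have hne : ∀ i, i ≠ j → (C i).indicator (fun _ => (1:ℝ)) ω = 0 := by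
      intro i hij
      exact indicator_of_notMem (fun hi => Set.disjoint_left.mp (hd hij) hi hj) _
    rw [Finset.sum_eq_single j (fun i _ hij => by rw [hne i hij, mul_zero])
      (fun h => absurd (Finset.mem_univ j) h),
      Finset.sum_eq_single j (fun i _ hij => by rw [hne i hij, mul_zero])
      (fun h => absurd (Finset.mem_univ j) h), indicator_of_mem hj, mul_one, mul_one]
  · push Not at h
    have hz : ∀ i, (C i).indicator (fun _ => (1:ℝ)) ω = 0 := fun i =>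
      indicator_of_notMem (h i) _
    simp only [hz, mul_zero, Finset.sum_const_zero, h0]

lemma integral_ind_mul {A : Set Ω} (hA : MeasurableSet A) (a : ℝ) (g : Ω → ℝ) :
    ∫ ω, a * A.indicator (fun _ => (1:ℝ)) ω * g ω ∂μ = a * ∫ ω in A, g ω ∂μ := by
  rw [← integral_indicator hA, ← integral_const_mul]
  refine integral_congr_ae (ae_of_all _ fun ω => ?_)
  by_cases h : ω ∈ A
  · simp [h]
  · simp [h]

lemma integrable_ind_mul {A : Set Ω} (hA : MeasurableSet A) (a : ℝ) {g : Ω → ℝ}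
    (hg : Integrable g μ) :
    Integrable (fun ω => a * A.indicator (fun _ => (1:ℝ)) ω * g ω) μ := by
  have h1 : Integrable (A.indicator g) μ := hg.indicator hA
  refine (h1.const_mul a).congr (ae_of_all _ fun ω => ?_)
  by_cases h : ω ∈ A
  · simp [h]
  · simp [h]

/-- the integral of `φ(step) * g` -/
lemma integral_step_mul {C : κ → Set Ω} (hC : ∀ j, MeasurableSet (C j))
    (hd : Pairwise fun i j => Disjoint (C i) (C j)) (c : κ → ℝ) (φ : ℝ → ℝ) (h0 : φ 0 = 0)
    {g : Ω → ℝ} (hg : Integrable g μ) :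
    ∫ ω, φ (step p μ C c ω) * g ω ∂μ = ∑ j, φ (c j) * ∫ ω in C j, g ω ∂μ := by
  have e : ∫ ω, φ (step p μ C c ω) * g ω ∂μ =
      ∫ ω, ∑ j, φ (c j) * (C j).indicator (fun _ => (1:ℝ)) ω * g ω ∂μ := by
    apply integral_congr_ae
    filter_upwards [step_ae (p := p) (μ := μ) hC c] with ω h1
    rw [h1, sum_ind_apply hd c φ h0, Finset.sum_mul]
  rw [e, integral_finsetSum _ fun j _ => integrable_ind_mul (hC j) _ hg]
  exact Finset.sum_congr rfl fun j _ => integral_ind_mul (hC j) _ _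

end Step

lemma RKJ (P z : ℝ) : Pool.Agent.Y825.RK.J (𝕜 := ℝ) P z = J P z := by
  unfold Pool.Agent.Y825.RK.J J
  simp

lemma Lp_integrable (f : Lp ℝ p μ) : Integrable f μ :=
  (Lp.memLp f).integrable (Fact.out)

lemma norm_rpow' (h1 : 1 < p.toReal) (htop : p ≠ ∞) (x : Lp ℝ p μ) :
    ‖x‖ ^ p.toReal = ∫ ω, |x ω| ^ p.toReal ∂μ :=
  Pool.Agent.Y825.RK.norm_rpow h1 htop x

lemma norm_step {κ : Type*} [Fintype κ] (h1 : 1 < p.toReal) (htop : p ≠ ∞) {C : κ → Set Ω}
    (hC : ∀ j, MeasurableSet (C j)) (hd : Pairwise fun i j => Disjoint (C i) (C j))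
    (c : κ → ℝ) :
    ‖step p μ C c‖ ^ p.toReal = ∑ j, μ.real (C j) * |c j| ^ p.toReal := by
  rw [norm_rpow' h1 htop]
  have := integral_step_mul (p := p) (μ := μ) hC hd c (fun z => |z| ^ p.toReal)
    (by simp only [abs_zero]; exact Real.zero_rpow (by linarith)) (g := fun _ => 1)
    (integrable_const _)
  simp only [mul_one] at this
  rw [this]
  refine Finset.sum_congr rfl fun j _ => ?_
  rw [setIntegral_const, smul_eq_mul, mul_one, mul_comm]

/-- the norming functional of a nonzero element -/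
lemma dual_formula (h1 : 1 < p.toReal) (htop : p ≠ ∞) {f : Lp ℝ p μ} (hf : f ≠ 0) :
    ∃ φ : Lp ℝ p μ →L[ℝ] ℝ, ‖φ‖ = 1 ∧ φ (‖f‖⁻¹ • f) = 1 ∧
      ∀ g : Lp ℝ p μ, ∫ ω, J p.toReal (f ω) * g ω ∂μ = ‖f‖ ^ (p.toReal - 1) * φ g := by
  have hn : 0 < ‖f‖ := norm_pos_iff.mpr hf
  set u : Lp ℝ p μ := ‖f‖⁻¹ • f with hu
  have hu1 : ‖u‖ = 1 := by
    rw [hu, norm_smul, norm_inv, norm_norm, inv_mul_cancel₀ hn.ne']
  have hu0 : ‖u‖ ≠ 0 := by rw [hu1]; exact one_ne_zero
  obtain ⟨φ, hφ1, hφ2⟩ := exists_dual_vector ℝ u hu0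
  have hφu : φ u = 1 := by
    rw [hφ2, hu1]; simp
  refine ⟨φ, hφ1, hφu, fun g => ?_⟩
  rw [Pool.Agent.Y825.RK.norming h1 htop hu1 hφ1 hφu g, ← integral_const_mul]
  apply integral_congr_ae
  filter_upwards [Lp.coeFn_smul (‖f‖⁻¹) f] with ω h2
  rw [RKJ, hu, h2, Pi.smul_apply, smul_eq_mul, J_mul_pos (inv_pos.mpr hn),
    Real.inv_rpow hn.le]
  have : ‖f‖ ^ (p.toReal - 1) ≠ 0 := (Real.rpow_pos_of_pos hn _).ne'
  field_simp

/-- Hölder -/
lemma holder (h1 : 1 < p.toReal) (htop : p ≠ ∞) (f g : Lp ℝ p μ) :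
    |∫ ω, J p.toReal (f ω) * g ω ∂μ| ≤ ‖f‖ ^ (p.toReal - 1) * ‖g‖ := by
  by_cases hf : f = 0
  · have : ∫ ω, J p.toReal (f ω) * g ω ∂μ = 0 := by
      rw [hf]
      have : ∫ ω, J p.toReal ((0 : Lp ℝ p μ) ω) * g ω ∂μ = ∫ ω, (0:ℝ) ∂μ := by
        apply integral_congr_ae
        filter_upwards [Lp.coeFn_zero ℝ p μ] with ω h
        rw [h, Pi.zero_apply, J_zero, zero_mul]
      rw [this, integral_zero]
    rw [this, abs_zero]
    positivity
  · obtain ⟨φ, hφ1, _, hφ⟩ := dual_formula h1 htop hf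
    rw [hφ g, abs_mul, abs_of_nonneg (by positivity : 0 ≤ ‖f‖ ^ (p.toReal - 1))]
    have : |φ g| ≤ ‖g‖ := by
      have := φ.le_opNorm g
      rwa [hφ1, one_mul, Real.norm_eq_abs] at this
    gcongr

/-- The numerical radius bounds `∫ J(f) T f`. -/
lemma radius_bound (h1 : 1 < p.toReal) (htop : p ≠ ∞) (T : Lp ℝ p μ →L[ℝ] Lp ℝ p μ)
    (f : Lp ℝ p μ) :
    |∫ ω, J p.toReal (f ω) * T f ω ∂μ| ≤
      Pool.Agent.Y772.NI.numRadius ℝ T * ‖f‖ ^ p.toReal := by
  by_cases hf : f = 0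
  · have h2 := holder h1 htop f (T f)
    rw [hf, map_zero, norm_zero, mul_zero] at h2
    rw [hf, map_zero]
    refine h2.trans (le_of_eq ?_)
    rw [norm_zero, Real.zero_rpow (by linarith), mul_zero]
  · have hn : 0 < ‖f‖ := norm_pos_iff.mpr hf
    obtain ⟨φ, hφ1, hφ2, hφ⟩ := dual_formula h1 htop hf
    have hu1 : ‖‖f‖⁻¹ • f‖ = 1 := by
      rw [norm_smul, norm_inv, norm_norm, inv_mul_cancel₀ hn.ne']
    have h2 := Pool.Agent.Y772.NI.le_numRadius T (‖f‖⁻¹ • f) φ hu1 hφ1 hφ2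
    rw [map_smul, map_smul, smul_eq_mul, abs_mul, abs_of_pos (inv_pos.mpr hn)] at h2
    rw [hφ (T f), abs_mul, abs_of_pos (Real.rpow_pos_of_pos hn _)]
    have h3 : |φ (T f)| ≤ Pool.Agent.Y772.NI.numRadius ℝ T * ‖f‖ := by
      rw [inv_mul_le_iff₀ hn] at h2
      linarith
    calc ‖f‖ ^ (p.toReal - 1) * |φ (T f)| ≤
        ‖f‖ ^ (p.toReal - 1) * (Pool.Agent.Y772.NI.numRadius ℝ T * ‖f‖) := by gcongr
      _ = Pool.Agent.Y772.NI.numRadius ℝ T * (‖f‖ ^ (p.toReal - 1) * ‖f‖) := by ring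
      _ = _ := by
          rw [← Real.rpow_add_one hn.ne']
          congr 2; ring

/-- integrals over sets are bounded by the `L_p` norm -/
lemma setIntegral_bound : ∃ K : ℝ, 0 ≤ K ∧ ∀ (h : Lp ℝ p μ) (A : Set Ω),
    |∫ ω in A, h ω ∂μ| ≤ K * ‖h‖ := by
  have h0 : 1 / (1 : ℝ≥0∞).toReal - 1 / p.toReal = 1 - 1 / p.toReal := by simp
  set c : ℝ≥0∞ := μ Set.univ ^ (1 / (1 : ℝ≥0∞).toReal - 1 / p.toReal) with hc
  have hexp : 0 ≤ 1 - 1 / p.toReal := by
    by_cases hp : p = ∞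
    · rw [hp]; simp
    · have h1 : 1 ≤ p.toReal := by
        have := (ENNReal.toReal_le_toReal (by simp) hp).mpr (Fact.out : 1 ≤ p)
        simpa using this
      rw [sub_nonneg, div_le_one (by linarith)]
      exact h1
  have hcfin : c ≠ ∞ := by
    rw [hc, h0]
    exact ENNReal.rpow_ne_top_of_nonneg hexp (measure_ne_top μ _)
  refine ⟨c.toReal, ENNReal.toReal_nonneg, fun h A => ?_⟩
  have hi := Lp_integrable h
  calc |∫ ω in A, h ω ∂μ| ≤ ∫ ω in A, |h ω| ∂μ := abs_integral_le_integral_abs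
    _ ≤ ∫ ω, |h ω| ∂μ := setIntegral_le_integral hi.abs (Eventually.of_forall fun ω => abs_nonneg _)
    _ = (eLpNorm h 1 μ).toReal := by
        rw [eLpNorm_one_eq_lintegral_enorm]
        exact integral_norm_eq_lintegral_enorm hi.1
    _ ≤ (eLpNorm h p μ * c).toReal := by
        apply ENNReal.toReal_mono (ENNReal.mul_ne_top (Lp.memLp h).2.ne hcfin)
        exact eLpNorm_le_eLpNorm_mul_rpow_measure_univ (Fact.out) (Lp.memLp h).1
    _ = c.toReal * ‖h‖ := by
        rw [ENNReal.toReal_mul, mul_comm, Lp.norm_def]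

end Pool.Agent.K3h11.Nar
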