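import Mathlib

/-!
# Narrow operators: the finite dimensional part

`J p z = |z|^(p-2) z`.  For a matrix `b` and weights `w` such that the bilinear form `b` satisfies
the relaxed numerical radius bound, `m * b(k, z) ≤ v`.
-/

set_option autoImplicit false
set_option linter.unusedSectionVars false

namespace Pool.Agent.K3h11.Nar

open Set

/-- the duality map -/
noncomputable def J (p : ℝ) (z : ℝ) : ℝ := |z| ^ (p - 2) * z

lemma J_zero (p : ℝ) : J p 0 = 0 := by simp [J]

lemma J_mul_self {p : ℝ} (hp : 1 < p) (z : ℝ) : J p z * z = |z| ^ p := by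
  unfold J
  rcases (abs_nonneg z).eq_or_lt with h | h
  · have h0 : z = 0 := abs_eq_zero.mp h.symm
    rw [h0, mul_zero, abs_zero, Real.zero_rpow (by linarith)]
  · rw [mul_assoc, ← abs_mul_abs_self z, ← pow_two, ← Real.rpow_natCast |z| 2, ← Real.rpow_add h]
    congr 1; push_cast; ring

lemma J_neg (p z : ℝ) : J p (-z) = -J p z := by simp [J]

lemma J_mul_pos {p c : ℝ} (hc : 0 < c) (z : ℝ) : J p (c * z) = c ^ (p - 1) * J p z := by
  unfold J
  rw [abs_mul, abs_of_pos hc, Real.mul_rpow hc.le (abs_nonneg _)]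
  have : c ^ (p - 1) = c ^ (p - 2) * c := by
    rw [← Real.rpow_add_one hc.ne']; congr 1; ring
  rw [this]; ring

lemma J_of_pos {p z : ℝ} (hz : 0 < z) : J p z = z ^ (p - 1) := by
  have := J_mul_pos (p := p) hz 1
  rw [mul_one] at this
  rw [this]
  simp [J]

lemma J_nonneg {p z : ℝ} (hz : 0 ≤ z) : 0 ≤ J p z := by
  unfold J; positivity

lemma J_pos {p z : ℝ} (hz : 0 < z) : 0 < J p z := by
  rw [J_of_pos hz]; positivity

lemma abs_J {p : ℝ} (hp : 1 < p) (z : ℝ) : |J p z| = |z| ^ (p - 1) := by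
  unfold J
  rw [abs_mul, abs_of_nonneg (by positivity : (0:ℝ) ≤ |z| ^ (p - 2))]
  rcases (abs_nonneg z).eq_or_lt with h | h
  · rw [← h, mul_zero, Real.zero_rpow (by linarith)]
  · rw [← Real.rpow_add_one h.ne']; congr 1; ring

/-- the values attached to a point `(x, y)` -/
structure Choice (p m x y : ℝ) where
  θ : ℝ
  α : ℝ
  β : ℝ
  θ' : ℝ
  α' : ℝ
  β' : ℝ
  h0 : 0 ≤ θ
  h1 : θ ≤ 1
  h0' : 0 ≤ θ'
  h1' : θ' ≤ 1
  mean : θ * α + (1 - θ) * β = x
  mean' : θ' * J p α' + (1 - θ') * J p β' = J p y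
  key : (θ * J p α + (1 - θ) * J p β) * y + J p x * (θ' * α' + (1 - θ') * β') =
    m * (θ * |α| ^ p + (1 - θ) * |β| ^ p + (θ' * |α'| ^ p + (1 - θ') * |β'| ^ p)) +
      (J p x * y + x * J p y)

section

variable {p m τ : ℝ}

/-- the powers of `τ` -/
lemma pow_facts (hτ : 0 < τ) (hm : m * (1 + τ ^ p) = τ - τ ^ (p - 1)) :
    τ - m * τ ^ p = τ ^ (p - 1) + m ∧
    (1 / τ) ^ (p - 1) - m * (1 / τ) ^ p = 1 / τ + m ∧
    1 / τ + m * (1 / τ) ^ p = (1 / τ) ^ (p - 1) - m ∧
    τ ^ (p - 1) + m * τ ^ p = τ - m := by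
  have e1 : τ ^ p = τ ^ (p - 1) * τ := by
    rw [← Real.rpow_add_one hτ.ne']; congr 1; ring
  have hq : 0 < τ ^ (p - 1) := by positivity
  have e2 : (1 / τ) ^ (p - 1) = 1 / τ ^ (p - 1) := by
    rw [Real.div_rpow zero_le_one hτ.le, Real.one_rpow]
  have e3 : (1 / τ) ^ p = 1 / (τ ^ (p - 1) * τ) := by
    rw [Real.div_rpow zero_le_one hτ.le, Real.one_rpow, e1]
  rw [e1] at hm ⊢
  rw [e2, e3]
  set q := τ ^ (p - 1)
  refine ⟨by linarith, ?_, ?_, by linarith⟩
  · field_simp; linarith
  · field_simp; linarith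

lemma J_mono {p : ℝ} (hp : 1 < p) {a b : ℝ} (h : a ≤ b) : J p a ≤ J p b := by
  have key : ∀ c d : ℝ, 0 ≤ c → c ≤ d → J p c ≤ J p d := by
    intro c d hc hcd
    rcases hc.eq_or_lt with h0 | h0
    · rw [← h0, J_zero]
      exact J_nonneg (hc.trans hcd)
    · rw [J_of_pos h0, J_of_pos (h0.trans_le hcd)]
      exact Real.rpow_le_rpow h0.le hcd (by linarith)
  rcases le_total 0 a with ha | ha
  · exact key a b ha h
  · rcases le_total 0 b with hb | hb
    · have h1 : J p a ≤ 0 := by
        have := J_nonneg (p := p) (z := -a) (by linarith)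
        rw [J_neg] at this; linarith
      exact h1.trans (J_nonneg hb)
    · have := key (-b) (-a) (by linarith) (by linarith)
      rw [J_neg, J_neg] at this; linarith

lemma J_mul (p a b : ℝ) : J p (a * b) = J p a * J p b := by
  unfold J
  rw [abs_mul, Real.mul_rpow (abs_nonneg _) (abs_nonneg _)]; ring

/-- the pointwise choice -/
theorem exists_choice (hp : 1 < p) (hτ : 0 < τ) (hm : m * (1 + τ ^ p) = τ - τ ^ (p - 1))
    (x y : ℝ) : Nonempty (Choice p m x y) := by
  obtain ⟨f1, f2, f3, f4⟩ := pow_facts hτ hm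
  have hQ : 0 < τ ^ (p - 1) := by positivity
  have hr : 0 < (1 / τ) ^ (p - 1) := by positivity
  have hτ' : 0 < 1 / τ := by positivity
  have hQr : (1 / τ) ^ (p - 1) * τ ^ (p - 1) = 1 := by
    rw [← Real.mul_rpow hτ'.le hτ.le, one_div_mul_cancel hτ.ne', Real.one_rpow]
  have hττ : (1 / τ) * τ = 1 := one_div_mul_cancel hτ.ne'
  have hJτ : J p τ = τ ^ (p - 1) := J_of_pos hτ
  have hJτ' : J p (1 / τ) = (1 / τ) ^ (p - 1) := J_of_pos hτ'
  have h0p : |(0:ℝ)| ^ p = 0 := by rw [abs_zero, Real.zero_rpow (by linarith)]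
  have e1 : |τ| ^ p = τ ^ p := by rw [abs_of_pos hτ]
  have e2 : |(1 / τ)| ^ p = (1 / τ) ^ p := by rw [abs_of_pos hτ']
  have e3 : |(-(1 / τ))| ^ p = (1 / τ) ^ p := by rw [abs_neg, e2]
  have e4 : |(-τ)| ^ p = τ ^ p := by rw [abs_neg, e1]
  set Q := τ ^ (p - 1) with hQdef
  set r := (1 / τ) ^ (p - 1) with hrdef
  set A := τ ^ p with hA
  set B := (1 / τ) ^ p with hB
  set σ := 1 / τ with hσ
  by_cases hR : x ≠ 0 ∧ -σ ≤ y / x ∧ y / x ≤ τ
  · obtain ⟨hx, hu1, hu2⟩ := hR
    set u := y / x with hu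
    have hy : y = u * x := by rw [hu]; field_simp
    have k1 : -r ≤ J p u := by
      have := J_mono hp hu1
      rwa [J_neg, hJτ'] at this
    have k2 : J p u ≤ Q := by
      have := J_mono hp hu2
      rwa [hJτ] at this
    set κ := J p u with hκ
    have hJy : J p y = κ * J p x := by rw [hy, J_mul]
    have hX : J p x * x = |x| ^ p := J_mul_self hp x
    have hd : 0 < Q + r := by linarith
    set θ' := (κ + r) / (Q + r) with hθ'
    have hθd : θ' * (Q + r) = κ + r := by rw [hθ']; field_simp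
    refine ⟨⟨1, x, 0, θ', τ * x, (-σ) * x, zero_le_one, le_rfl,
      div_nonneg (by linarith) hd.le, ?_, ?_, ?_, ?_⟩⟩
    · rw [hθ', div_le_one hd]; linarith
    · ring
    · rw [J_mul, J_mul, J_neg, hJτ, hJτ', hJy]
      linear_combination (J p x) * hθd
    · rw [abs_mul, abs_mul, Real.mul_rpow (abs_nonneg _) (abs_nonneg _),
        Real.mul_rpow (abs_nonneg _) (abs_nonneg _), e1, e3, h0p, J_zero, hJy, ← hX]
      have h1 : θ' * (Q + m) - (1 - θ') * (r - m) = m + κ := by linear_combination hθd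
      have h2 : θ' * (τ - m * A) - (1 - θ') * (σ + m * B) = m + κ := by rw [f1, f3]; exact h1
      linear_combination (J p x * x) * h2
  · -- the other region
    by_cases hy : y = 0
    · have hx : x = 0 := by
        by_contra hx
        exact hR ⟨hx, by rw [hy, zero_div]; linarith, by rw [hy, zero_div]; linarith⟩
      subst hx hy
      refine ⟨⟨0, 0, 0, 0, 0, 0, le_rfl, zero_le_one, le_rfl, zero_le_one, ?_, ?_, ?_⟩⟩
      · ring
      · ring
      · rw [h0p, J_zero]; ring
    have hs : -τ ≤ x / y ∧ x / y ≤ σ := by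
      by_cases hx : x = 0
      · rw [hx, zero_div]; exact ⟨by linarith, by linarith⟩
      have hu : y / x < -σ ∨ τ < y / x := by
        by_contra hcon
        push Not at hcon
        exact hR ⟨hx, hcon.1, hcon.2⟩
      have hinv : (y / x) * (x / y) = 1 := by field_simp
      rcases hu with hu | hu
      · have hneg : y / x < 0 := by linarith
        have hsn : x / y < 0 := by
          by_contra hcon
          push Not at hcon
          have := mul_nonpos_of_nonpos_of_nonneg hneg.le hcon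
          linarith
        refine ⟨?_, by linarith⟩
        by_contra hcon
        push Not at hcon
        have h1 : (y / x) * (x / y) > σ * τ := by
          have := mul_lt_mul'' (show σ < -(y / x) by linarith) (show τ < -(x / y) by linarith)
            hτ'.le hτ.le
          linarith
        rw [hinv, hττ] at h1
        exact lt_irrefl _ h1
      · have hpos : 0 < y / x := by linarith
        have hsp : 0 < x / y := by
          by_contra hcon
          push Not at hcon
          have := mul_nonpos_of_nonneg_of_nonpos hpos.le hcon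
          linarith
        refine ⟨by linarith, ?_⟩
        by_contra hcon
        push Not at hcon
        have h1 : (y / x) * (x / y) > τ * σ := mul_lt_mul'' hu hcon hτ.le hτ'.le
        rw [hinv, mul_comm τ, hττ] at h1
        exact lt_irrefl _ h1
    obtain ⟨hs1, hs2⟩ := hs
    set s := x / y with hs
    have hx : x = s * y := by rw [hs]; field_simp
    have hY : J p y * y = |y| ^ p := J_mul_self hp y
    have hd : 0 < σ + τ := by linarith
    set θ := (s + τ) / (σ + τ) with hθ
    have hθd : θ * (σ + τ) = s + τ := by rw [hθ]; field_simp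
    refine ⟨⟨θ, σ * y, (-τ) * y, 1, y, 0, div_nonneg (by linarith) hd.le, ?_, zero_le_one, le_rfl,
      ?_, ?_, ?_⟩⟩
    · rw [hθ, div_le_one hd]; linarith
    · rw [hx]; linear_combination y * hθd
    · ring
    · rw [abs_mul, abs_mul, Real.mul_rpow (abs_nonneg _) (abs_nonneg _),
        Real.mul_rpow (abs_nonneg _) (abs_nonneg _), e2, e4, h0p, J_mul, J_mul, J_neg, hJτ, hJτ',
        ← hY]
      have h1 : θ * (σ + m) - (1 - θ) * (τ - m) = m + s := by linear_combination hθd
      have h2 : θ * (r - m * B) - (1 - θ) * (Q + m * A) = m + s := by rw [f2, f4]; exact h1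
      linear_combination (J p y * y) * h2 - (J p y) * hx

end

lemma hasDerivAt_abs_pow {p : ℝ} (hp : 1 < p) (z : ℝ) :
    HasDerivAt (fun s : ℝ => |z + s| ^ p) (p * J p z) 0 := by
  have hF := hasDerivAt_abs_rpow (z + 0) hp
  have hG : HasDerivAt (fun s : ℝ => z + s) 1 0 := by
    simpa using (hasDerivAt_id (0:ℝ)).const_add z
  have h := HasDerivAt.comp (h := fun s : ℝ => z + s) (h₂ := fun x : ℝ => |x| ^ p) (0:ℝ) hF hG
  refine h.congr_deriv ?_
  rw [add_zero]; unfold J; ring

lemma stationary {p : ℝ} (hp : 1 < p) {c z h : ℝ}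
    (H : ∀ s : ℝ, s * h ≤ c * ((|z + s| ^ p - |z| ^ p) / p)) : c * J p z = h := by
  have hd : HasDerivAt (fun s : ℝ => c * ((|z + s| ^ p - |z| ^ p) / p) - s * h)
      (c * (p * J p z / p) - 1 * h) 0 :=
    ((((hasDerivAt_abs_pow hp z).sub_const _).div_const p).const_mul c).sub
      ((hasDerivAt_id (0:ℝ)).mul_const h)
  have hmin : IsLocalMin (fun s : ℝ => c * ((|z + s| ^ p - |z| ^ p) / p) - s * h) 0 := by
    refine Filter.Eventually.of_forall fun s => ?_
    have := H s
    simp only [add_zero, sub_self, zero_div, mul_zero, zero_mul]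
    linarith
  have := hmin.hasDerivAt_eq_zero hd
  have h2 : p * J p z / p = J p z := by field_simp
  rw [h2] at this
  linarith

section Finite

variable {ι : Type*} [Fintype ι] [DecidableEq ι]

/-- the bilinear form of a matrix -/
def Bf (b : ι → ι → ℝ) (k z : ι → ℝ) : ℝ := ∑ i, ∑ j, k i * b i j * z j

/-- the gauge -/
noncomputable def Ng (p q : ℝ) (w z k : ι → ℝ) : ℝ :=
  ∑ i, w i * (|z i| ^ p / p + |k i| ^ q / q)

lemma Bf_update_right (b : ι → ι → ℝ) (k z : ι → ℝ) (i : ι) (s : ℝ) :
    Bf b k (Function.update z i (z i + s)) = Bf b k z + s * ∑ l, k l * b l i := by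
  unfold Bf
  rw [Finset.mul_sum, ← Finset.sum_add_distrib]
  refine Finset.sum_congr rfl fun l _ => ?_
  have : ∀ j, k l * b l j * Function.update z i (z i + s) j =
      k l * b l j * z j + (if j = i then s * (k l * b l i) else 0) := by
    intro j
    by_cases h : j = i
    · subst h; simp; ring
    · simp [h]
  rw [Finset.sum_congr rfl fun j _ => this j, Finset.sum_add_distrib]
  simp

lemma Bf_update_left (b : ι → ι → ℝ) (k z : ι → ℝ) (i : ι) (s : ℝ) :
    Bf b (Function.update k i (k i + s)) z = Bf b k z + s * ∑ j, b i j * z j := by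
  unfold Bf
  have : ∀ l, (∑ j, Function.update k i (k i + s) l * b l j * z j) =
      (∑ j, k l * b l j * z j) + (if l = i then s * ∑ j, b i j * z j else 0) := by
    intro l
    by_cases h : l = i
    · subst h
      simp only [Function.update_self, if_true]
      rw [Finset.mul_sum, ← Finset.sum_add_distrib]
      refine Finset.sum_congr rfl fun j _ => by ring
    · simp [h]
  rw [Finset.sum_congr rfl fun j _ => this j, Finset.sum_add_distrib]
  simp

lemma Ng_update_right (p q : ℝ) (w z k : ι → ℝ) (i : ι) (s : ℝ) :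
    Ng p q w (Function.update z i (z i + s)) k =
      Ng p q w z k + w i * ((|z i + s| ^ p - |z i| ^ p) / p) := by
  unfold Ng
  have : ∀ l, w l * (|Function.update z i (z i + s) l| ^ p / p + |k l| ^ q / q) =
      w l * (|z l| ^ p / p + |k l| ^ q / q) +
        (if l = i then w i * ((|z i + s| ^ p - |z i| ^ p) / p) else 0) := by
    intro l
    by_cases h : l = i
    · subst h; simp; ring
    · simp [h]
  rw [Finset.sum_congr rfl fun j _ => this j, Finset.sum_add_distrib]
  simp

lemma Ng_update_left (p q : ℝ) (w z k : ι → ℝ) (i : ι) (s : ℝ) :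
    Ng p q w z (Function.update k i (k i + s)) =
      Ng p q w z k + w i * ((|k i + s| ^ q - |k i| ^ q) / q) := by
  unfold Ng
  have : ∀ l, w l * (|z l| ^ p / p + |Function.update k i (k i + s) l| ^ q / q) =
      w l * (|z l| ^ p / p + |k l| ^ q / q) +
        (if l = i then w i * ((|k i + s| ^ q - |k i| ^ q) / q) else 0) := by
    intro l
    by_cases h : l = i
    · subst h; simp; ring
    · simp [h]
  rw [Finset.sum_congr rfl fun j _ => this j, Finset.sum_add_distrib]
  simp

lemma Ng_nonneg {p q : ℝ} (hp : 1 < p) (hq : 1 < q) {w : ι → ℝ} (hw : ∀ i, 0 < w i)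
    (z k : ι → ℝ) : 0 ≤ Ng p q w z k := by
  unfold Ng
  refine Finset.sum_nonneg fun i _ => mul_nonneg (hw i).le ?_
  have : 0 < p := by linarith
  have : 0 < q := by linarith
  positivity

lemma Ng_eq_zero {p q : ℝ} (hp : 1 < p) (hq : 1 < q) {w : ι → ℝ} (hw : ∀ i, 0 < w i)
    {z k : ι → ℝ} (h : Ng p q w z k = 0) : z = 0 ∧ k = 0 := by
  have hp0 : 0 < p := by linarith
  have hq0 : 0 < q := by linarith
  unfold Ng at h
  rw [Finset.sum_eq_zero_iff_of_nonneg (fun i _ => mul_nonneg (hw i).le (by positivity))] at h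
  have h2 : ∀ i, |z i| ^ p = 0 ∧ |k i| ^ q = 0 := by
    intro i
    have h3 := h i (Finset.mem_univ i)
    rcases mul_eq_zero.mp h3 with h4 | h4
    · exact absurd h4 (hw i).ne'
    · have a1 : 0 ≤ |z i| ^ p / p := by positivity
      have a2 : 0 ≤ |k i| ^ q / q := by positivity
      have b1 : |z i| ^ p / p = 0 := by linarith
      have b2 : |k i| ^ q / q = 0 := by linarith
      exact ⟨(div_eq_zero_iff.mp b1).resolve_right hp0.ne',
        (div_eq_zero_iff.mp b2).resolve_right hq0.ne'⟩
  constructor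
  · funext i
    have := (Real.rpow_eq_zero (abs_nonneg _) hp0.ne').mp (h2 i).1
    simpa using this
  · funext i
    have := (Real.rpow_eq_zero (abs_nonneg _) hq0.ne').mp (h2 i).2
    simpa using this

lemma Ng_scale {p q : ℝ} (hp : 1 < p) (hq : 1 < q) {w : ι → ℝ} (z k : ι → ℝ) {c : ℝ}
    (hc : 0 < c) :
    Ng p q w (c ^ (1 / p) • z) (c ^ (1 / q) • k) = c * Ng p q w z k := by
  unfold Ng
  rw [Finset.mul_sum]
  refine Finset.sum_congr rfl fun i _ => ?_
  have hp0 : p ≠ 0 := by linarith
  have hq0 : q ≠ 0 := by linarith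
  simp only [Pi.smul_apply, smul_eq_mul]
  rw [abs_mul, abs_mul, Real.mul_rpow (abs_nonneg _) (abs_nonneg _),
    Real.mul_rpow (abs_nonneg _) (abs_nonneg _), abs_of_pos (by positivity : 0 < c ^ (1 / p)),
    abs_of_pos (by positivity : 0 < c ^ (1 / q)), ← Real.rpow_mul hc.le, ← Real.rpow_mul hc.le,
    one_div_mul_cancel hp0, one_div_mul_cancel hq0, Real.rpow_one]
  ring

lemma Bf_smul (b : ι → ι → ℝ) (k z : ι → ℝ) (c d : ℝ) :
    Bf b (c • k) (d • z) = c * d * Bf b k z := by
  unfold Bf
  rw [Finset.mul_sum]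
  refine Finset.sum_congr rfl fun i _ => ?_
  rw [Finset.mul_sum]
  refine Finset.sum_congr rfl fun j _ => ?_
  simp only [Pi.smul_apply, smul_eq_mul]
  ring

lemma Ng_continuous {p q : ℝ} (hp : 1 < p) (hq : 1 < q) (w : ι → ℝ) :
    Continuous fun x : (ι → ℝ) × (ι → ℝ) => Ng p q w x.1 x.2 := by
  unfold Ng
  refine continuous_finsetSum _ fun i _ => continuous_const.mul (Continuous.add ?_ ?_)
  · refine Continuous.div_const ?_ _
    exact Continuous.rpow_const (continuous_abs.comp ((continuous_apply i).comp continuous_fst))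
      (fun _ => Or.inr (by linarith))
  · refine Continuous.div_const ?_ _
    exact Continuous.rpow_const (continuous_abs.comp ((continuous_apply i).comp continuous_snd))
      (fun _ => Or.inr (by linarith))

lemma Bf_continuous (b : ι → ι → ℝ) :
    Continuous fun x : (ι → ℝ) × (ι → ℝ) => Bf b x.2 x.1 := by
  unfold Bf
  refine continuous_finsetSum _ fun i _ => continuous_finsetSum _ fun j _ => ?_
  exact (((continuous_apply i).comp continuous_snd).mul continuous_const).mul
    ((continuous_apply j).comp continuous_fst)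

lemma compact_sphere {p q : ℝ} (hp : 1 < p) (hq : 1 < q) {w : ι → ℝ} (hw : ∀ i, 0 < w i) :
    IsCompact {x : (ι → ℝ) × (ι → ℝ) | Ng p q w x.1 x.2 = 1} := by
  have hp0 : 0 < p := by linarith
  have hq0 : 0 < q := by linarith
  refine Metric.isCompact_of_isClosed_isBounded
    (isClosed_singleton.preimage (Ng_continuous hp hq w)) ?_
  rw [Metric.isBounded_iff_subset_closedBall 0]
  refine ⟨∑ i, ((p / w i) ^ (1 / p) + (q / w i) ^ (1 / q)), ?_⟩
  rintro ⟨z, k⟩ hx
  have hx' : Ng p q w z k = 1 := hx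
  have hterm : ∀ i, w i * (|z i| ^ p / p + |k i| ^ q / q) ≤ 1 := by
    intro i
    rw [← hx']
    unfold Ng
    exact Finset.single_le_sum (f := fun i => w i * (|z i| ^ p / p + |k i| ^ q / q))
      (fun j _ => mul_nonneg (hw j).le (by positivity)) (Finset.mem_univ i)
  have hpos1 : ∀ i, 0 ≤ (p / w i) ^ (1 / p) := fun i =>
    Real.rpow_nonneg (div_nonneg hp0.le (hw i).le) _
  have hpos2 : ∀ i, 0 ≤ (q / w i) ^ (1 / q) := fun i =>
    Real.rpow_nonneg (div_nonneg hq0.le (hw i).le) _
  have hsum : ∀ i, (p / w i) ^ (1 / p) + (q / w i) ^ (1 / q) ≤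
      ∑ i, ((p / w i) ^ (1 / p) + (q / w i) ^ (1 / q)) := fun i =>
    Finset.single_le_sum (f := fun i => (p / w i) ^ (1 / p) + (q / w i) ^ (1 / q))
      (fun j _ => add_nonneg (hpos1 j) (hpos2 j)) (Finset.mem_univ i)
  have hz : ∀ i, |z i| ≤ (p / w i) ^ (1 / p) := by
    intro i
    have h1 := hterm i
    have h2 : |z i| ^ p ≤ p / w i := by
      rw [le_div_iff₀ (hw i)]
      have h3 : 0 ≤ w i * (|k i| ^ q / q) := mul_nonneg (hw i).le (by positivity)
      have h4 : w i * (|z i| ^ p / p) ≤ 1 := by rw [mul_add] at h1; linarith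
      have h5 : w i * (|z i| ^ p / p) = (|z i| ^ p * w i) / p := by ring
      rw [h5, div_le_iff₀ hp0] at h4
      linarith
    calc |z i| = (|z i| ^ p) ^ (1 / p) := by
          rw [← Real.rpow_mul (abs_nonneg _), mul_one_div_cancel hp0.ne', Real.rpow_one]
      _ ≤ _ := Real.rpow_le_rpow (by positivity) h2 (by positivity)
  have hk : ∀ i, |k i| ≤ (q / w i) ^ (1 / q) := by
    intro i
    have h1 := hterm i
    have h2 : |k i| ^ q ≤ q / w i := by
      rw [le_div_iff₀ (hw i)]
      have h3 : 0 ≤ w i * (|z i| ^ p / p) := mul_nonneg (hw i).le (by positivity)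
      have h4 : w i * (|k i| ^ q / q) ≤ 1 := by rw [mul_add] at h1; linarith
      have h5 : w i * (|k i| ^ q / q) = (|k i| ^ q * w i) / q := by ring
      rw [h5, div_le_iff₀ hq0] at h4
      linarith
    calc |k i| = (|k i| ^ q) ^ (1 / q) := by
          rw [← Real.rpow_mul (abs_nonneg _), mul_one_div_cancel hq0.ne', Real.rpow_one]
      _ ≤ _ := Real.rpow_le_rpow (by positivity) h2 (by positivity)
  have hR0 : 0 ≤ ∑ i, ((p / w i) ^ (1 / p) + (q / w i) ^ (1 / q)) :=
    Finset.sum_nonneg fun i _ => add_nonneg (hpos1 i) (hpos2 i)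
  rw [mem_closedBall_zero_iff, Prod.norm_def, max_le_iff, pi_norm_le_iff_of_nonneg hR0,
    pi_norm_le_iff_of_nonneg hR0]
  exact ⟨fun i => (hz i).trans (le_trans (by linarith [hpos2 i]) (hsum i)),
    fun i => (hk i).trans (le_trans (by linarith [hpos1 i]) (hsum i))⟩

lemma J_J {p q : ℝ} (hpq : p.HolderConjugate q) (z : ℝ) : J p (J q z) = z := by
  have hq := hpq.symm.lt
  have hp := hpq.lt
  have key : ∀ z : ℝ, 0 < z → J p (J q z) = z := by
    intro z hz
    rw [J_of_pos hz, J_of_pos (by positivity), ← Real.rpow_mul hz.le]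
    have : (q - 1) * (p - 1) = 1 := by
      have := hpq.mul_eq_add; linarith
    rw [this, Real.rpow_one]
  rcases lt_trichotomy z 0 with h | h | h
  · have := key (-z) (by linarith)
    rw [J_neg, J_neg] at this; linarith
  · rw [h, J_zero, J_zero]
  · exact key z h

/-- the relaxed numerical radius bound -/
def Relaxed (p v : ℝ) (w : ι → ℝ) (b : ι → ι → ℝ) : Prop :=
  ∀ θ α β : ι → ℝ, (∀ i, 0 ≤ θ i ∧ θ i ≤ 1) →
    |Bf b (fun i => θ i * J p (α i) + (1 - θ i) * J p (β i))
      (fun i => θ i * α i + (1 - θ i) * β i)| ≤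
      v * ∑ i, w i * (θ i * |α i| ^ p + (1 - θ i) * |β i| ^ p)

lemma Bf_left_sum (b : ι → ι → ℝ) (k z : ι → ℝ) : Bf b k z = ∑ i, k i * ∑ j, b i j * z j := by
  unfold Bf
  refine Finset.sum_congr rfl fun i _ => ?_
  rw [Finset.mul_sum]
  exact Finset.sum_congr rfl fun j _ => by ring

lemma Bf_right_sum (b : ι → ι → ℝ) (k z : ι → ℝ) : Bf b k z = ∑ j, (∑ i, k i * b i j) * z j := by
  unfold Bf
  rw [Finset.sum_comm]
  refine Finset.sum_congr rfl fun i _ => ?_
  rw [Finset.sum_mul]

lemma core {p τ m v β : ℝ} (hp : 1 < p) (hτ : 0 < τ) (hm : m * (1 + τ ^ p) = τ - τ ^ (p - 1))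
    {w : ι → ℝ} (hw : ∀ i, 0 < w i) {b : ι → ι → ℝ} (R : Relaxed p v w b) (hβ : 0 < β)
    (x y k : ι → ℝ) (hk : ∀ i, k i = J p (y i)) (h1 : ∀ i, ∑ l, k l * b l i = β * w i * J p (x i))
    (h2 : ∀ i, ∑ j, b i j * x j = β * w i * y i) (hx : ∃ i, x i ≠ 0)
    (hc : 0 ≤ ∑ i, w i * (J p (x i) * y i + x i * J p (y i))) : β * m ≤ v := by
  have ch : ∀ i, Nonempty (Choice p m (x i) (y i)) := fun i => exists_choice hp hτ hm (x i) (y i)
  have c : ∀ i, Choice p m (x i) (y i) := fun i => (ch i).some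
  have hA := R (fun i => (c i).θ) (fun i => (c i).α) (fun i => (c i).β)
    (fun i => ⟨(c i).h0, (c i).h1⟩)
  have hB := R (fun i => (c i).θ') (fun i => (c i).α') (fun i => (c i).β')
    (fun i => ⟨(c i).h0', (c i).h1'⟩)
  have eA : (fun i => (c i).θ * (c i).α + (1 - (c i).θ) * (c i).β) = x := by
    funext i; exact (c i).mean
  have eB : (fun i => (c i).θ' * J p (c i).α' + (1 - (c i).θ') * J p (c i).β') = k := by
    funext i; rw [hk i]; exact (c i).mean'
  rw [eA] at hA
  rw [eB] at hB
  have hA2 := (le_abs_self _).trans hA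
  have hB2 := (le_abs_self _).trans hB
  rw [Bf_left_sum] at hA2
  rw [Bf_right_sum] at hB2
  have hsum := add_le_add hA2 hB2
  set CA : ι → ℝ := fun i => (c i).θ * |(c i).α| ^ p + (1 - (c i).θ) * |(c i).β| ^ p with hCA
  set CB : ι → ℝ := fun i => (c i).θ' * |(c i).α'| ^ p + (1 - (c i).θ') * |(c i).β'| ^ p with hCB
  have hlhs : (∑ i, ((c i).θ * J p (c i).α + (1 - (c i).θ) * J p (c i).β) *
      ∑ j, b i j * x j) + (∑ j, (∑ i, k i * b i j) *
      ((c j).θ' * (c j).α' + (1 - (c j).θ') * (c j).β')) =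
      β * (m * ∑ i, w i * (CA i + CB i)) +
        β * ∑ i, w i * (J p (x i) * y i + x i * J p (y i)) := by
    rw [← Finset.sum_add_distrib, Finset.mul_sum, Finset.mul_sum, Finset.mul_sum,
      ← Finset.sum_add_distrib]
    refine Finset.sum_congr rfl fun i _ => ?_
    rw [h1, h2]
    have := (c i).key
    simp only [hCA, hCB]
    linear_combination (β * w i) * this
  have hrhs' : v * ∑ i, w i * ((c i).θ * |(c i).α| ^ p + (1 - (c i).θ) * |(c i).β| ^ p) +
      v * ∑ i, w i * ((c i).θ' * |(c i).α'| ^ p + (1 - (c i).θ') * |(c i).β'| ^ p) =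
      v * ∑ i, w i * (CA i + CB i) := by
    rw [← mul_add, ← Finset.sum_add_distrib]
    congr 1
    exact Finset.sum_congr rfl fun i _ => by simp only [hCA, hCB]; ring
  rw [hlhs, hrhs'] at hsum
  have hCA0 : ∀ i, 0 ≤ CA i := fun i =>
    add_nonneg (mul_nonneg (c i).h0 (by positivity))
      (mul_nonneg (by linarith [(c i).h1]) (by positivity))
  have hCB0 : ∀ i, 0 ≤ CB i := fun i =>
    add_nonneg (mul_nonneg (c i).h0' (by positivity))
      (mul_nonneg (by linarith [(c i).h1']) (by positivity))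
  have hpos : 0 < ∑ i, w i * (CA i + CB i) := by
    obtain ⟨i, hi⟩ := hx
    refine Finset.sum_pos' (fun j _ => mul_nonneg (hw j).le (add_nonneg (hCA0 j) (hCB0 j)))
      ⟨i, Finset.mem_univ i, mul_pos (hw i) ?_⟩
    refine add_pos_of_pos_of_nonneg ?_ (hCB0 i)
    rcases (hCA0 i).eq_or_lt with h | h
    · exfalso
      have t1 : 0 ≤ (c i).θ * |(c i).α| ^ p := mul_nonneg (c i).h0 (by positivity)
      have t2 : 0 ≤ (1 - (c i).θ) * |(c i).β| ^ p :=
        mul_nonneg (by linarith [(c i).h1]) (by positivity)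
      have h' : 0 = (c i).θ * |(c i).α| ^ p + (1 - (c i).θ) * |(c i).β| ^ p := h
      have s1 : (c i).θ * |(c i).α| ^ p = 0 := by linarith
      have s2 : (1 - (c i).θ) * |(c i).β| ^ p = 0 := by linarith
      have zero_of : ∀ a : ℝ, |a| ^ p = 0 → a = 0 := fun a ha => by
        have := (Real.rpow_eq_zero (abs_nonneg _) (by linarith : p ≠ 0)).mp ha
        simpa using this
      have u1 : (c i).θ * (c i).α = 0 := by
        rcases mul_eq_zero.mp s1 with h3 | h3
        · rw [h3, zero_mul]
        · rw [zero_of _ h3, mul_zero]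
      have u2 : (1 - (c i).θ) * (c i).β = 0 := by
        rcases mul_eq_zero.mp s2 with h3 | h3
        · rw [h3, zero_mul]
        · rw [zero_of _ h3, mul_zero]
      exact hi (by rw [← (c i).mean, u1, u2, add_zero])
    · exact h
  have hfin : β * m * ∑ i, w i * (CA i + CB i) ≤ v * ∑ i, w i * (CA i + CB i) := by
    have : 0 ≤ β * ∑ i, w i * (J p (x i) * y i + x i * J p (y i)) := mul_nonneg hβ.le hc
    nlinarith [hsum, this]
  exact le_of_mul_le_mul_right hfin hpos

theorem finite_main {p q τ m v : ℝ} (hpq : p.HolderConjugate q) (hτ : 0 < τ)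
    (hm : m * (1 + τ ^ p) = τ - τ ^ (p - 1)) (hm0 : 0 ≤ m) (hv : 0 ≤ v)
    {w : ι → ℝ} (hw : ∀ i, 0 < w i) {b : ι → ι → ℝ} (R : Relaxed p v w b) (k z : ι → ℝ) :
    m * Bf b k z ≤ v * Ng p q w z k := by
  have hp := hpq.lt
  have hq := hpq.symm.lt
  have hp0 : 0 < p := by linarith
  have hq0 : 0 < q := by linarith
  rcases isEmpty_or_nonempty ι with hι | hι
  · simp [Bf, Ng]
  obtain ⟨⟨z0, k0⟩, h01, hmax⟩ := (compact_sphere hp hq hw).exists_isMaxOn (by
    set c := Ng p q w (fun _ => 1) (fun _ => 1) with hc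
    have hc0 : 0 < c := by
      rcases (Ng_nonneg hp hq hw (fun _ => 1) (fun _ => 1)).eq_or_lt with h | h
      · exfalso
        have h1 := (Ng_eq_zero hp hq hw h.symm).1
        obtain ⟨i⟩ := hι
        have h2 := congrFun h1 i
        simp at h2
      · exact h
    refine ⟨((1 / c) ^ (1 / p) • (fun _ => 1), (1 / c) ^ (1 / q) • (fun _ => 1)), ?_⟩
    show Ng p q w _ _ = 1
    rw [Ng_scale hp hq _ _ (by positivity : 0 < 1 / c), ← hc, one_div_mul_cancel hc0.ne'])
    (Bf_continuous b).continuousOn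
  have hN1 : Ng p q w z0 k0 = 1 := h01
  set β := Bf b k0 z0 with hβdef
  have H : ∀ z k : ι → ℝ, Bf b k z ≤ β * Ng p q w z k := by
    intro z k
    rcases (Ng_nonneg hp hq hw z k).eq_or_lt with h | h
    · obtain ⟨rfl, rfl⟩ := Ng_eq_zero hp hq hw h.symm
      rw [← h]
      simp [Bf]
    · set N := Ng p q w z k with hN
      have hin : ((1 / N) ^ (1 / p) • z, (1 / N) ^ (1 / q) • k) ∈
          {x : (ι → ℝ) × (ι → ℝ) | Ng p q w x.1 x.2 = 1} := by
        show Ng p q w _ _ = 1
        rw [Ng_scale hp hq _ _ (by positivity : 0 < 1 / N), ← hN, one_div_mul_cancel h.ne']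
      have h3 := hmax hin
      have h4 : Bf b ((1 / N) ^ (1 / q) • k) ((1 / N) ^ (1 / p) • z) ≤ β := h3
      rw [Bf_smul, ← Real.rpow_add (by positivity : 0 < 1 / N)] at h4
      have h5 : 1 / q + 1 / p = 1 := by
        have := hpq.inv_add_inv_eq_one
        rw [one_div, one_div]; linarith
      rw [h5, Real.rpow_one, one_div_mul_eq_div, div_le_iff₀ h] at h4
      exact h4
  rcases le_or_gt β 0 with hβ | hβ
  · have h1 := H z k
    have h2 := Ng_nonneg hp hq hw z k
    have h3 : β * Ng p q w z k ≤ 0 := mul_nonpos_of_nonpos_of_nonneg hβ h2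
    have h4 : m * Bf b k z ≤ 0 := mul_nonpos_of_nonneg_of_nonpos hm0 (h1.trans h3)
    exact h4.trans (mul_nonneg hv h2)
  have st1 : ∀ i, ∑ l, k0 l * b l i = β * w i * J p (z0 i) := by
    intro i
    refine (stationary (p := p) hp (c := β * w i) (fun s => ?_)).symm
    have h3 := H (Function.update z0 i (z0 i + s)) k0
    rw [Bf_update_right, Ng_update_right, hN1, ← hβdef] at h3
    nlinarith [h3]
  have st2 : ∀ i, ∑ j, b i j * z0 j = β * w i * J q (k0 i) := by
    intro i
    refine (stationary (p := q) hq (c := β * w i) (fun s => ?_)).symm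
    have h3 := H z0 (Function.update k0 i (k0 i + s))
    rw [Bf_update_left, Ng_update_left, hN1, ← hβdef] at h3
    nlinarith [h3]
  have hx : ∃ i, z0 i ≠ 0 := by
    by_contra hcon
    push Not at hcon
    have h3 : Bf b k0 z0 = 0 := by
      rw [Bf_right_sum]
      exact Finset.sum_eq_zero fun i _ => by rw [hcon i, mul_zero]
    rw [← hβdef] at h3
    linarith
  have hfin : β * m ≤ v := by
    rcases le_total 0 (∑ i, w i * (J p (z0 i) * J q (k0 i) + z0 i * J p (J q (k0 i)))) with hc | hc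
    · exact core hp hτ hm hw R hβ z0 (fun i => J q (k0 i)) k0 (fun i => (J_J hpq _).symm) st1 st2
        hx hc
    · have R' : Relaxed p v w (fun i j => -b i j) := by
        intro θ α β' hθ
        have h3 := R θ α β' hθ
        have h4 : ∀ k z : ι → ℝ, Bf (fun i j => -b i j) k z = -Bf b k z := by
          intro k z
          unfold Bf
          rw [← Finset.sum_neg_distrib]
          refine Finset.sum_congr rfl fun i _ => ?_
          rw [← Finset.sum_neg_distrib]
          exact Finset.sum_congr rfl fun j _ => by ring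
        rw [h4, abs_neg]
        exact h3
      refine core hp hτ hm hw R' hβ z0 (fun i => J q (-k0 i)) (fun i => -k0 i)
        (fun i => (J_J hpq _).symm) (fun i => ?_) (fun i => ?_) hx ?_
      · rw [← st1 i]
        exact Finset.sum_congr rfl fun l _ => by ring
      · have := st2 i
        rw [J_neg]
        rw [mul_neg, ← this, ← Finset.sum_neg_distrib]
        exact Finset.sum_congr rfl fun l _ => by ring
      · have : ∑ i, w i * (J p (z0 i) * J q (-k0 i) + z0 i * J p (J q (-k0 i))) =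
            -∑ i, w i * (J p (z0 i) * J q (k0 i) + z0 i * J p (J q (k0 i))) := by
          rw [← Finset.sum_neg_distrib]
          refine Finset.sum_congr rfl fun i _ => ?_
          rw [J_neg, J_neg]; ring
        rw [this]
        linarith
  have h1 := H z k
  have h2 := Ng_nonneg hp hq hw z k
  calc m * Bf b k z ≤ m * (β * Ng p q w z k) := mul_le_mul_of_nonneg_left h1 hm0
    _ = (β * m) * Ng p q w z k := by ring
    _ ≤ v * Ng p q w z k := mul_le_mul_of_nonneg_right hfin h2

end Finite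

end Pool.Agent.K3h11.Nar
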