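import Pool.Agent.K3h11.Nar.Main

/-!
# The narrow numerical index of `L_p(μ)` is `M_p`, the numerical index is smaller
-/

set_option autoImplicit false
set_option linter.unusedSectionVars false

open MeasureTheory Set Filter Topology
open scoped ENNReal

namespace Pool.Agent.K3h11.Nar

open Pool.Agent.Y772.NI (numRadius numIndex bigM numRadius_nonneg numIndex_le real_all state_coord
  le_numRadius)

variable {Ω : Type} [MeasurableSpace Ω] {μ : Measure Ω} [IsFiniteMeasure μ]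
  {p : ℝ≥0∞} [Fact (1 ≤ p)]

/-- **The narrow numerical index.** -/
theorem narrow_eq (hμ : Atomless μ) (h0 : μ univ ≠ 0) (h1 : 1 < p.toReal) (htop : p ≠ ∞) :
    narrowIndex p μ = bigM p.toReal := by
  obtain ⟨w, A, hw, hA, hd, hAw, hu⟩ := partition2 hμ h0
  have hrot : numRadius ℝ (opT p μ w hA rt 0) ∈ {r : ℝ | ∃ T : Lp ℝ p μ →L[ℝ] Lp ℝ p μ,
      ‖T‖ = 1 ∧ IsNarrow T ∧ r = numRadius ℝ T} :=
    ⟨_, rot_norm h1 htop hw hA hd hAw hu, rot_narrow hμ hA hd hu, rfl⟩
  apply le_antisymm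
  · have hb : BddBelow {r : ℝ | ∃ T : Lp ℝ p μ →L[ℝ] Lp ℝ p μ,
      ‖T‖ = 1 ∧ IsNarrow T ∧ r = numRadius ℝ T} := by
      refine ⟨0, ?_⟩
      rintro _ ⟨T, _, _, rfl⟩
      exact numRadius_nonneg T
    exact (csInf_le hb hrot).trans (rot_radius h1 htop hw hA hd hAw)
  · refine le_csInf ⟨_, hrot⟩ ?_
    rintro _ ⟨T, hT1, hTn, rfl⟩
    have := lower_bigM h1 htop hTn
    rwa [hT1, mul_one] at this

/-! ### from `ℓ_p^3` to `L_p(μ)` -/

section three

/-- the space `ℓ_p^3` -/
abbrev L3 (p : ℝ≥0∞) := lp (fun _ : Fin 3 => ℝ) p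

lemma norm3 (h1 : 1 < p.toReal) (x : L3 p) : ‖x‖ ^ p.toReal = ∑ i, |x i| ^ p.toReal := by
  rw [lp.norm_rpow_eq_tsum (by linarith) x, tsum_fintype]
  simp only [Real.norm_eq_abs]

lemma decomp3 (x : L3 p) : x = ∑ i, x i • lp.single p i (1:ℝ) := by
  classical
  ext j
  rw [lp.coeFn_sum, Finset.sum_apply, Finset.sum_eq_single j]
  · simp
  · intro i _ hij
    simp [Pi.single_eq_of_ne hij.symm]
  · intro h; exact absurd (Finset.mem_univ j) h

lemma exists3 (z : Fin 3 → ℝ) : ∃ x : L3 p, ∀ i, x i = z i := by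
  classical
  refine ⟨∑ i, z i • lp.single p i (1:ℝ), fun j => ?_⟩
  rw [lp.coeFn_sum, Finset.sum_apply, Finset.sum_eq_single j]
  · simp
  · intro i _ hij
    simp [Pi.single_eq_of_ne hij.symm]
  · intro h; exact absurd (Finset.mem_univ j) h

/-- the matrix of an operator -/
noncomputable def m3 (T : L3 p →L[ℝ] L3 p) (i j : Fin 3) : ℝ := T (lp.single p j (1:ℝ)) i

lemma m3_apply (T : L3 p →L[ℝ] L3 p) (x : L3 p) (i : Fin 3) :
    T x i = ∑ j, m3 T i j * x j := by
  conv_lhs => rw [decomp3 x]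
  rw [map_sum, lp.coeFn_sum, Finset.sum_apply]
  refine Finset.sum_congr rfl fun j _ => ?_
  rw [map_smul, lp.coeFn_smul, Pi.smul_apply, smul_eq_mul, mul_comm]
  rfl

lemma state3 (h1 : 1 < p.toReal) (T : L3 p →L[ℝ] L3 p) (z : Fin 3 → ℝ) :
    |Bf (m3 T) (fun i => J p.toReal (z i)) z| ≤ numRadius ℝ T * ∑ i, |z i| ^ p.toReal := by
  classical
  set P := p.toReal with hP
  obtain ⟨x, hx⟩ := exists3 (p := p) z
  have hsum : ∑ i, |z i| ^ P = ‖x‖ ^ P := by
    rw [norm3 h1]
    exact Finset.sum_congr rfl fun i _ => by rw [hx]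
  have hB : Bf (m3 T) (fun i => J P (z i)) z = ∑ i, J P (x i) * T x i := by
    rw [Bf_left_sum]
    refine Finset.sum_congr rfl fun i _ => ?_
    rw [m3_apply, hx]
    congr 1
    exact Finset.sum_congr rfl fun j _ => by rw [hx]
  rw [hB, hsum]
  by_cases hx0 : x = 0
  · rw [hx0]
    have : ∑ i, J P ((0 : L3 p) i) * T (0 : L3 p) i = 0 := by
      refine Finset.sum_eq_zero fun i _ => ?_
      rw [map_zero]; simp
    rw [this, abs_zero]
    exact mul_nonneg (numRadius_nonneg T) (by positivity)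
  · have hn : 0 < ‖x‖ := norm_pos_iff.mpr hx0
    set u : L3 p := ‖x‖⁻¹ • x with hu
    have hu1 : ‖u‖ = 1 := by
      rw [hu, norm_smul, norm_inv, norm_norm, inv_mul_cancel₀ hn.ne']
    obtain ⟨φ, hφ1, hφ2⟩ := exists_dual_vector ℝ u (by rw [hu1]; exact one_ne_zero)
    have hφu : φ u = 1 := by rw [hφ2, hu1]; simp
    have h2 := le_numRadius T u φ hu1 hφ1 hφu
    have hco : ∀ i, φ (lp.single p i 1) = ‖x‖⁻¹ ^ (P - 1) * J P (x i) := by
      intro i
      rw [state_coord h1 rfl u hu1 φ hφ1 hφu i]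
      show J p.toReal (u i) = _
      rw [hu, lp.coeFn_smul, Pi.smul_apply, smul_eq_mul, J_mul_pos (inv_pos.mpr hn)]
    have hval : φ (T u) = ‖x‖⁻¹ * (‖x‖⁻¹ ^ (P - 1) * ∑ i, J P (x i) * T x i) := by
      rw [hu, map_smul, map_smul, smul_eq_mul]
      congr 1
      conv_lhs => rw [decomp3 (T x)]
      rw [map_sum, Finset.mul_sum]
      refine Finset.sum_congr rfl fun i _ => ?_
      rw [map_smul, smul_eq_mul, hco]
      ring
    rw [hval, ← mul_assoc, abs_mul, abs_of_pos (by positivity : 0 < ‖x‖⁻¹ * ‖x‖⁻¹ ^ (P - 1))] at h2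
    have e : ‖x‖⁻¹ * ‖x‖⁻¹ ^ (P - 1) = (‖x‖ ^ P)⁻¹ := by
      rw [mul_comm, ← Real.rpow_add_one (inv_pos.mpr hn).ne', ← Real.inv_rpow hn.le]
      congr 1; ring
    rw [e, inv_mul_le_iff₀ (by positivity)] at h2
    linarith

/-- **The numerical index of `L_p(μ)` is smaller than `M_p`.** -/
theorem index_lt (hμ : Atomless μ) (h0 : μ univ ≠ 0) (hp1 : 1 < p) (htop : p ≠ ∞) (hp2 : p ≠ 2) :
    numIndex ℝ (Lp ℝ p μ) < bigM p.toReal := by
  classical
  have h1 : 1 < p.toReal := by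
    rw [← ENNReal.toReal_one]
    exact (ENNReal.toReal_lt_toReal ENNReal.one_ne_top htop).mpr hp1
  have hP0 : 0 < p.toReal := by linarith
  have h3 := (real_all p hp1 htop hp2).2 (Fin 3) ⟨0, 1, 2, by decide, by decide, by decide⟩
  obtain ⟨r, ⟨T, hT1, rfl⟩, hr⟩ := exists_lt_of_csInf_lt
    (s := {r : ℝ | ∃ T : L3 p →L[ℝ] L3 p, ‖T‖ = 1 ∧ r = numRadius ℝ T}) (by
      by_contra hne
      rw [Set.not_nonempty_iff_eq_empty] at hne
      have h4 : ∃ T : L3 p →L[ℝ] L3 p, ‖T‖ = 1 := by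
        have : Nontrivial (L3 p) := by
          refine ⟨⟨lp.single p 0 (1:ℝ), 0, fun h => ?_⟩⟩
          have := congrArg (fun x : L3 p => x 0) h
          simp at this
        exact ⟨ContinuousLinearMap.id ℝ _, ContinuousLinearMap.norm_id⟩
      obtain ⟨T, hT⟩ := h4
      have h5 : numRadius ℝ T ∈ {r : ℝ | ∃ T : L3 p →L[ℝ] L3 p, ‖T‖ = 1 ∧ r = numRadius ℝ T} :=
        ⟨T, hT, rfl⟩
      rw [hne] at h5
      exact h5) h3
  obtain ⟨w, A, hw, hA, hd, hAw⟩ := partition3 hμ h0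
  set t : Fin 3 → Fin 3 → ℝ := fun i j => if i = j then 0 else m3 T i j with ht
  set d : Fin 3 → ℝ := fun i => m3 T i i with hdd
  have htd : ∀ i, t i i = 0 := fun i => by simp [ht]
  have hrad : numRadius ℝ (opT p μ w hA t d) ≤ numRadius ℝ T := by
    refine opT_radius h1 htop hw hA hd hAw (numRadius_nonneg T) htd d fun z => ?_
    have e : ∑ i, d i * |z i| ^ p.toReal + Bf t (fun i => J p.toReal (z i)) z =
        Bf (m3 T) (fun i => J p.toReal (z i)) z := by
      unfold Bf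
      rw [← Finset.sum_add_distrib]
      refine Finset.sum_congr rfl fun i _ => ?_
      have h4 : ∀ j, J p.toReal (z i) * m3 T i j * z j =
          (if j = i then d i * |z i| ^ p.toReal else 0) + J p.toReal (z i) * t i j * z j := by
        intro j
        by_cases h : j = i
        · subst h
          rw [htd, if_pos rfl, ← J_mul_self h1]; ring
        · rw [if_neg h, zero_add, ht]
          simp only [if_neg (Ne.symm h)]
      rw [Finset.sum_congr rfl fun j _ => h4 j, Finset.sum_add_distrib]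
      simp
    rw [e]
    exact state3 h1 T z
  have hstep : ∀ x : L3 p, ‖step p μ A x‖ ^ p.toReal = w * ‖x‖ ^ p.toReal := by
    intro x
    rw [norm_step h1 htop hA hd, norm3 h1, Finset.mul_sum]
    exact Finset.sum_congr rfl fun i _ => by rw [hAw]
  have hTstep : ∀ x : L3 p, opT p μ w hA t d (step p μ A x) = step p μ A (T x) := by
    intro x
    rw [opT_step hw hA hd hAw]
    congr 1
    funext i
    rw [m3_apply]
    have h4 : ∀ j, m3 T i j * x j = (if j = i then d i * x i else 0) + t i j * x j := by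
      intro j
      by_cases h : j = i
      · subst h
        rw [htd, if_pos rfl]; ring
      · rw [if_neg h, zero_add, ht]
        simp only [if_neg (Ne.symm h)]
    rw [Finset.sum_congr rfl fun j _ => h4 j, Finset.sum_add_distrib]
    simp [add_comm]
  have hnorm : 1 ≤ ‖opT p μ w hA t d‖ := by
    rw [← hT1]
    refine ContinuousLinearMap.opNorm_le_bound _ (norm_nonneg _) fun x => ?_
    have h4 := (opT p μ w hA t d).le_opNorm (step p μ A x)
    rw [hTstep] at h4
    have h5 := Real.rpow_le_rpow (norm_nonneg _) h4 hP0.le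
    rw [Real.mul_rpow (norm_nonneg _) (norm_nonneg _), hstep, hstep] at h5
    have h6 : ‖T x‖ ^ p.toReal ≤ (‖opT p μ w hA t d‖ * ‖x‖) ^ p.toReal := by
      rw [Real.mul_rpow (norm_nonneg _) (norm_nonneg _)]
      have h7 : w * ‖T x‖ ^ p.toReal ≤ w * (‖opT p μ w hA t d‖ ^ p.toReal * ‖x‖ ^ p.toReal) := by
        linarith
      exact le_of_mul_le_mul_left h7 hw
    exact (Real.rpow_le_rpow_iff (norm_nonneg _) (by positivity) hP0).mp h6
  have hfin := numIndex_le (opT p μ w hA t d) (numRadius ℝ T) 1 (numRadius_nonneg T) one_pos hnorm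
    (fun x f hx hf hfx => (le_numRadius _ x f hx hf hfx).trans hrad)
  rw [div_one] at hfin
  exact hfin.trans_lt hr

end three

lemma bigM_two : bigM 2 = 0 := by
  have h : (fun t : ℝ => |t ^ ((2:ℝ) - 1) - t| / (1 + t ^ (2:ℝ))) '' Icc 0 1 = {0} := by
    ext r
    constructor
    · rintro ⟨t, _, rfl⟩
      have : (2:ℝ) - 1 = 1 := by norm_num
      simp [this]
    · intro hr
      rw [mem_singleton_iff] at hr
      refine ⟨0, ⟨le_rfl, zero_le_one⟩, ?_⟩
      have : (2:ℝ) - 1 = 1 := by norm_num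
      simp [this, hr]
  unfold Pool.Agent.Y772.NI.bigM
  rw [h, csSup_singleton]

/-- for `p = 2` both indices vanish -/
theorem index_two_eq (hμ : Atomless μ) (h0 : μ univ ≠ 0) (hp2 : p = 2) :
    numIndex ℝ (Lp ℝ p μ) = narrowIndex p μ := by
  have hP : p.toReal = 2 := by rw [hp2]; rfl
  have h1 : 1 < p.toReal := by rw [hP]; norm_num
  have htop : p ≠ ∞ := by rw [hp2]; simp
  obtain ⟨w, A, hw, hA, hd, hAw, hu⟩ := partition2 hμ h0
  have hrad := rot_radius (p := p) h1 htop hw hA hd hAw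
  have hnorm := rot_norm (p := p) h1 htop hw hA hd hAw hu
  rw [hP, bigM_two] at hrad
  rw [narrow_eq hμ h0 h1 htop, hP, bigM_two]
  apply le_antisymm
  · have hfin := numIndex_le (opT p μ w hA rt 0) 0 1 le_rfl one_pos hnorm.ge
      (fun x f hx hf hfx => (le_numRadius _ x f hx hf hfx).trans hrad)
    simpa using hfin
  · apply Real.sInf_nonneg
    rintro _ ⟨T, _, rfl⟩
    exact numRadius_nonneg T

/-- Lebesgue measure on `[0,1]` is atomless. -/
theorem atomless_unit : Atomless (volume.restrict (Icc (0:ℝ) 1)) := by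
  intro A hA hpos
  set μ := volume.restrict (Icc (0:ℝ) 1) with hμ
  have hfin : μ A ≠ ∞ := measure_ne_top _ _
  have hr : 0 < μ.real A := ENNReal.toReal_pos hpos.ne' hfin
  set δ := μ.real A / 2 with hδ
  have hδ0 : 0 < δ := by positivity
  have hcov : A = ⋃ k : ℤ, A ∩ Ico (k * δ) ((k + 1) * δ) := by
    ext ω
    constructor
    · intro h
      rw [mem_iUnion]
      refine ⟨⌊ω / δ⌋, h, ?_, ?_⟩
      · have := Int.floor_le (ω / δ)
        rwa [le_div_iff₀ hδ0] at this
      · have := Int.lt_floor_add_one (ω / δ)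
        rwa [div_lt_iff₀ hδ0] at this
    · intro h
      rw [mem_iUnion] at h
      obtain ⟨_, h, _⟩ := h
      exact h
  have hex : ∃ k : ℤ, 0 < μ (A ∩ Ico (k * δ) ((k + 1) * δ)) := by
    by_contra hcon
    push Not at hcon
    have h2 : μ (⋃ k : ℤ, A ∩ Ico (k * δ) ((k + 1) * δ)) = 0 :=
      measure_iUnion_null fun k => le_antisymm (hcon k) bot_le
    rw [← hcov] at h2
    exact hpos.ne' h2
  obtain ⟨k, hk⟩ := hex
  refine ⟨_, hA.inter measurableSet_Ico, inter_subset_left, hk, ?_⟩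
  have h2 : μ (A ∩ Ico (k * δ) ((k + 1) * δ)) ≤ ENNReal.ofReal δ := by
    calc μ (A ∩ Ico (k * δ) ((k + 1) * δ)) ≤ μ (Ico (k * δ) ((k + 1) * δ)) :=
          measure_mono inter_subset_right
      _ ≤ volume (Ico (k * δ) ((k + 1) * δ)) := Measure.restrict_apply_le _ _
      _ = ENNReal.ofReal δ := by
          rw [Real.volume_Ico]
          congr 1
          ring
  refine h2.trans_lt ?_
  rw [← ofReal_measureReal hfin]
  exact (ENNReal.ofReal_lt_ofReal_iff hr).mpr (by rw [hδ]; linarith)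

end Pool.Agent.K3h11.Nar
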