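import Pool.Agent.K3h11.Nar.Defs

/-!
# The lower bound for the numerical radius of narrow operators
-/

set_option autoImplicit false
set_option linter.unusedSectionVars false

open MeasureTheory Set Filter Topology
open scoped ENNReal

namespace Pool.Agent.K3h11.Nar

open Pool.Agent.Y772.NI (numRadius numIndex bigM numRadius_nonneg)

variable {Ω : Type} [MeasurableSpace Ω] {μ : Measure Ω} [IsFiniteMeasure μ]
  {p : ℝ≥0∞} [Fact (1 ≤ p)]

lemma additive_T (T : Lp ℝ p μ →L[ℝ] Lp ℝ p μ) : Additive' (fun A => T (indS p μ A)) := by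
  intro A B hA hB hAB
  show T _ = T _ + T _
  rw [additive_indS A B hA hB hAB, map_add]

lemma halvable_T {T : Lp ℝ p μ →L[ℝ] Lp ℝ p μ} (hT : IsNarrow T) :
    Halvable μ (fun A => T (indS p μ A)) := by
  intro A hA ε hε
  obtain ⟨B, hB, hC, hBA, hBm, hBT⟩ := hT A hA ε hε
  refine ⟨B, hB, hBA, hBm, ?_⟩
  show ‖T _ - T _‖ < ε
  rw [← map_sub, indS_of hB, indS_of hC]
  exact hBT

/-- additivity of the set integral in the function -/
lemma setIntegral_add' (f g : Lp ℝ p μ) (A : Set Ω) :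
    ∫ ω in A, (f + g : Lp ℝ p μ) ω ∂μ = ∫ ω in A, f ω ∂μ + ∫ ω in A, g ω ∂μ := by
  rw [← integral_add (Lp_integrable f).integrableOn (Lp_integrable g).integrableOn]
  apply integral_congr_ae
  exact ae_restrict_of_ae (Lp.coeFn_add f g)

lemma setIntegral_smul' (c : ℝ) (f : Lp ℝ p μ) (A : Set Ω) :
    ∫ ω in A, (c • f : Lp ℝ p μ) ω ∂μ = c * ∫ ω in A, f ω ∂μ := by
  rw [← integral_const_mul]
  apply integral_congr_ae
  exact ae_restrict_of_ae (Lp.coeFn_smul c f)

/-- the set integral as a continuous linear functional -/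
noncomputable def sI (p : ℝ≥0∞) [Fact (1 ≤ p)] (μ : Measure Ω) [IsFiniteMeasure μ] (A : Set Ω) :
    Lp ℝ p μ →L[ℝ] ℝ :=
  LinearMap.mkContinuous
    { toFun := fun f => ∫ ω in A, f ω ∂μ
      map_add' := fun f g => setIntegral_add' f g A
      map_smul' := fun c f => setIntegral_smul' c f A }
    (setIntegral_bound (p := p) (μ := μ)).choose
    (fun f => (setIntegral_bound (p := p) (μ := μ)).choose_spec.2 f A)

lemma sI_apply (A : Set Ω) (f : Lp ℝ p μ) : sI p μ A f = ∫ ω in A, f ω ∂μ := rfl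

/-- the matrix of an operator -/
noncomputable def mat {ι : Type*} (T : Lp ℝ p μ →L[ℝ] Lp ℝ p μ) (A : ι → Set Ω) (i j : ι) : ℝ :=
  ∫ ω in A i, T (indS p μ (A j)) ω ∂μ

lemma mat_sum {ι : Type*} [Fintype ι] (T : Lp ℝ p μ →L[ℝ] Lp ℝ p μ) (A : ι → Set Ω)
    (z : ι → ℝ) (i : ι) : ∑ j, mat T A i j * z j = ∫ ω in A i, T (step p μ A z) ω ∂μ := by
  rw [← sI_apply]
  unfold step
  rw [map_sum, map_sum]
  refine Finset.sum_congr rfl fun j _ => ?_
  rw [map_smul, map_smul, smul_eq_mul, sI_apply]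
  unfold mat
  ring

theorem relaxed_of_narrow (h1 : 1 < p.toReal) (htop : p ≠ ∞)
    {T : Lp ℝ p μ →L[ℝ] Lp ℝ p μ} (hT : IsNarrow T) {ι : Type*} [Fintype ι] [DecidableEq ι]
    {A : ι → Set Ω} (hA : ∀ i, MeasurableSet (A i))
    (hd : Pairwise fun i j => Disjoint (A i) (A j)) :
    Relaxed p.toReal (numRadius ℝ T) (fun i => μ.real (A i)) (mat T A) := by
  intro θ α β hθ
  set P := p.toReal with hP
  set m : ι → ℝ := fun i => θ i * α i + (1 - θ i) * β i with hm
  set x : Lp ℝ p μ := step p μ A m with hx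
  set g : Lp ℝ p μ := T x with hg
  have hgi : Integrable (fun ω => g ω) μ := Lp_integrable g
  have hadd := additive_T T
  have hhalv := halve_pair hadd (halvable_T hT) hgi
  have hadd2 := additive_pair hadd hgi
  have hex : ∀ (n : ℕ) (i : ι), ∃ B, MeasurableSet B ∧ B ⊆ A i ∧
      |μ.real B - θ i * μ.real (A i)| < 1 / ((n : ℝ) + 1) ∧
      ‖(T (indS p μ B), ∫ ω in B, g ω ∂μ) -
        θ i • (T (indS p μ (A i)), ∫ ω in A i, g ω ∂μ)‖ < 1 / ((n : ℝ) + 1) := fun n i =>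
    approx hadd2 hhalv (hθ i).1 (hθ i).2 (hA i) (by positivity)
  choose B hB hBA hBm hBΛ using hex
  have hε : Tendsto (fun n : ℕ => 1 / ((n : ℝ) + 1)) atTop (𝓝 0) :=
    tendsto_one_div_add_atTop_nhds_zero_nat
  have t1 : ∀ i, Tendsto (fun n => μ.real (B n i)) atTop (𝓝 (θ i * μ.real (A i))) := by
    intro i
    rw [tendsto_iff_norm_sub_tendsto_zero]
    exact squeeze_zero (fun n => norm_nonneg _) (fun n => (hBm n i).le) hε
  have t23 : ∀ i, Tendsto (fun n => (T (indS p μ (B n i)), ∫ ω in B n i, g ω ∂μ)) atTop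
      (𝓝 (θ i • (T (indS p μ (A i)), ∫ ω in A i, g ω ∂μ))) := by
    intro i
    rw [tendsto_iff_norm_sub_tendsto_zero]
    exact squeeze_zero (fun n => norm_nonneg _) (fun n => (hBΛ n i).le) hε
  have t2 : ∀ i, Tendsto (fun n => T (indS p μ (B n i))) atTop
      (𝓝 (θ i • T (indS p μ (A i)))) := fun i =>
    (continuous_fst.tendsto _).comp (t23 i)
  have t3 : ∀ i, Tendsto (fun n => ∫ ω in B n i, g ω ∂μ) atTop
      (𝓝 (θ i * ∫ ω in A i, g ω ∂μ)) := fun i =>
    (continuous_snd.tendsto _).comp (t23 i)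
  -- complements
  have c1 : ∀ n i, μ.real (A i \ B n i) = μ.real (A i) - μ.real (B n i) := fun n i =>
    measureReal_sdiff (hBA n i) (hB n i)
  have c2 : ∀ n i, T (indS p μ (A i \ B n i)) = T (indS p μ (A i)) - T (indS p μ (B n i)) :=
    fun n i => hadd.diff (hA i) (hB n i) (hBA n i)
  have c3 : ∀ n i, ∫ ω in A i \ B n i, g ω ∂μ = ∫ ω in A i, g ω ∂μ - ∫ ω in B n i, g ω ∂μ :=
    fun n i => (additive_integral hgi).diff (hA i) (hB n i) (hBA n i)
  -- the cells
  set C : ℕ → ι ⊕ ι → Set Ω := fun n => Sum.elim (fun i => B n i) (fun i => A i \ B n i) with hC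
  set c : ι ⊕ ι → ℝ := Sum.elim α β with hc
  have hCm : ∀ n j, MeasurableSet (C n j) := by
    intro n j
    rcases j with i | i
    · exact hB n i
    · exact (hA i).diff (hB n i)
  have hCd : ∀ n, Pairwise fun i j => Disjoint (C n i) (C n j) := by
    intro n j l hjl
    rcases j with i | i <;> rcases l with k | k
    · have : i ≠ k := fun h => hjl (by rw [h])
      exact (hd this).mono (hBA n i) (hBA n k)
    · by_cases h : i = k
      · subst h; exact disjoint_sdiff_right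
      · exact (hd h).mono (hBA n i) sdiff_subset
    · by_cases h : i = k
      · subst h; exact disjoint_sdiff_left
      · exact (hd h).mono sdiff_subset (hBA n k)
    · have : i ≠ k := fun h => hjl (by rw [h])
      exact (hd this).mono sdiff_subset sdiff_subset
  set f : ℕ → Lp ℝ p μ := fun n => step p μ (C n) c with hf
  have ineq : ∀ n, |∫ ω, J P (f n ω) * T (f n) ω ∂μ| ≤ numRadius ℝ T * ‖f n‖ ^ P := fun n =>
    radius_bound h1 htop T (f n)
  -- the right side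
  have hnorm : ∀ n, ‖f n‖ ^ P = ∑ i, (μ.real (B n i) * |α i| ^ P +
      (μ.real (A i) - μ.real (B n i)) * |β i| ^ P) := by
    intro n
    rw [hf, norm_step h1 htop (hCm n) (hCd n), Fintype.sum_sum_type, ← Finset.sum_add_distrib]
    refine Finset.sum_congr rfl fun i _ => ?_
    simp only [hC, hc, Sum.elim_inl, Sum.elim_inr]
    rw [c1]
  have hR : Tendsto (fun n => numRadius ℝ T * ‖f n‖ ^ P) atTop
      (𝓝 (numRadius ℝ T * ∑ i, μ.real (A i) * (θ i * |α i| ^ P + (1 - θ i) * |β i| ^ P))) := by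
    simp_rw [hnorm]
    refine Tendsto.const_mul _ (tendsto_finsetSum _ fun i _ => ?_)
    have := ((t1 i).mul_const (|α i| ^ P)).add (((t1 i).const_sub (μ.real (A i))).mul_const
      (|β i| ^ P))
    have e : θ i * μ.real (A i) * |α i| ^ P + (μ.real (A i) - θ i * μ.real (A i)) * |β i| ^ P =
        μ.real (A i) * (θ i * |α i| ^ P + (1 - θ i) * |β i| ^ P) := by ring
    rw [e] at this
    exact this
  -- the images
  have hTf : ∀ n, T (f n) = ∑ i, (α i • T (indS p μ (B n i)) +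
      β i • (T (indS p μ (A i)) - T (indS p μ (B n i)))) := by
    intro n
    rw [hf]
    show T (step p μ (C n) c) = _
    unfold step
    rw [map_sum, Fintype.sum_sum_type, ← Finset.sum_add_distrib]
    refine Finset.sum_congr rfl fun i _ => ?_
    simp only [hC, hc, Sum.elim_inl, Sum.elim_inr]
    rw [map_smul, map_smul, c2]
  have hgs : g = ∑ i, (α i • (θ i • T (indS p μ (A i))) +
      β i • (T (indS p μ (A i)) - θ i • T (indS p μ (A i)))) := by
    rw [hg, hx]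
    unfold step
    rw [map_sum]
    refine Finset.sum_congr rfl fun i _ => ?_
    rw [map_smul, hm]
    module
  have hTlim : Tendsto (fun n => T (f n)) atTop (𝓝 g) := by
    simp_rw [hTf]
    rw [hgs]
    refine tendsto_finsetSum _ fun i _ => ?_
    exact ((t2 i).const_smul (α i)).add (((t2 i).const_sub _).const_smul (β i))
  have hTn : Tendsto (fun n => ‖T (f n) - g‖) atTop (𝓝 0) := by
    rw [← tendsto_iff_norm_sub_tendsto_zero]
    exact hTlim
  obtain ⟨K, hK0, hK⟩ := setIntegral_bound (p := p) (μ := μ)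
  -- integrals of `T (f n)` over varying sets
  have hint : ∀ (D : ℕ → Set Ω) (L : ℝ), Tendsto (fun n => ∫ ω in D n, g ω ∂μ) atTop (𝓝 L) →
      Tendsto (fun n => ∫ ω in D n, T (f n) ω ∂μ) atTop (𝓝 L) := by
    intro D L hD
    have h2 : Tendsto (fun n => sI p μ (D n) (T (f n) - g)) atTop (𝓝 0) := by
      refine squeeze_zero_norm (fun n => ?_) (by simpa using hTn.const_mul K)
      rw [Real.norm_eq_abs, sI_apply]
      exact hK _ _
    have h3 := hD.add h2
    rw [add_zero] at h3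
    refine h3.congr fun n => ?_
    rw [map_sub, sI_apply, sI_apply]
    ring
  have hL : Tendsto (fun n => ∫ ω, J P (f n ω) * T (f n) ω ∂μ) atTop
      (𝓝 (∑ i, (θ i * J P (α i) + (1 - θ i) * J P (β i)) * ∫ ω in A i, g ω ∂μ)) := by
    have e : ∀ n, ∫ ω, J P (f n ω) * T (f n) ω ∂μ = ∑ i, (J P (α i) * (∫ ω in B n i, T (f n) ω ∂μ) +
        J P (β i) * ∫ ω in A i \ B n i, T (f n) ω ∂μ) := by
      intro n
      have h2 := integral_step_mul (p := p) (hCm n) (hCd n) c (J P) (J_zero P)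
        (g := fun ω => T (f n) ω) (Lp_integrable (T (f n)))
      rw [Fintype.sum_sum_type, ← Finset.sum_add_distrib] at h2
      exact h2
    simp_rw [e]
    refine tendsto_finsetSum _ fun i _ => ?_
    have h3 := (hint _ _ (t3 i)).const_mul (J P (α i))
    have h4 : Tendsto (fun n => ∫ ω in A i \ B n i, g ω ∂μ) atTop
        (𝓝 ((∫ ω in A i, g ω ∂μ) - θ i * ∫ ω in A i, g ω ∂μ)) := by
      simp_rw [c3]
      exact (t3 i).const_sub _
    have h5 := (hint _ _ h4).const_mul (J P (β i))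
    have h6 := h3.add h5
    have e2 : J P (α i) * (θ i * ∫ ω in A i, g ω ∂μ) +
        J P (β i) * ((∫ ω in A i, g ω ∂μ) - θ i * ∫ ω in A i, g ω ∂μ) =
        (θ i * J P (α i) + (1 - θ i) * J P (β i)) * ∫ ω in A i, g ω ∂μ := by ring
    rw [e2] at h6
    exact h6
  have hfin := le_of_tendsto_of_tendsto hL.abs hR (Eventually.of_forall ineq)
  rw [Bf_left_sum]
  simp_rw [mat_sum]
  exact hfin

open Classical in
/-- the values taken with positive measure -/
noncomputable def cells (μ : Measure Ω) (r : SimpleFunc Ω (ℝ × ℝ)) : Finset (ℝ × ℝ) :=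
  r.range.filter fun c => μ (r ⁻¹' {c}) ≠ 0

lemma mem_cells (r : SimpleFunc Ω (ℝ × ℝ)) : ∀ᵐ ω ∂μ, r ω ∈ cells μ r := by
  classical
  have h1 : ∀ᵐ ω ∂μ, ∀ c ∈ r.range, μ (r ⁻¹' {c}) = 0 → r ω ≠ c := by
    rw [Filter.eventually_all_finset]
    intro c _
    by_cases h : μ (r ⁻¹' {c}) = 0
    · have h2 : ∀ᵐ ω ∂μ, ω ∉ r ⁻¹' {c} := measure_eq_zero_iff_ae_notMem.mp h
      filter_upwards [h2] with ω hω _ h3
      exact hω h3
    · exact Eventually.of_forall fun ω h2 => absurd h2 h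
  filter_upwards [h1] with ω hω
  unfold cells
  rw [Finset.mem_filter]
  exact ⟨r.mem_range_self ω, fun h => hω _ (r.mem_range_self ω) h rfl⟩

/-- the step function attached to a simple function with values in the plane -/
lemma step_pair (r : SimpleFunc Ω (ℝ × ℝ)) (φ : ℝ × ℝ → ℝ) {X : Lp ℝ p μ}
    (hX : X =ᵐ[μ] fun ω => φ (r ω)) :
    step p μ (fun c : {c // c ∈ cells μ r} => r ⁻¹' {c.1}) (fun c => φ c.1) = X := by
  apply Lp.ext
  have hs := step_ae (p := p) (μ := μ) (C := fun c : {c // c ∈ cells μ r} => r ⁻¹' {c.1})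
    (fun c => r.measurableSet_fiber c.1) (fun c => φ c.1)
  filter_upwards [hs, hX, mem_cells (μ := μ) r] with ω he1 he2 hω
  rw [he1, he2, Finset.sum_eq_single (⟨r ω, hω⟩ : {c // c ∈ cells μ r})]
  · rw [indicator_of_mem (show ω ∈ r ⁻¹' {r ω} from rfl), mul_one]
  · intro c _ hc
    rw [indicator_of_notMem, mul_zero]
    intro h
    apply hc
    have h' : r ω = c.1 := h
    exact Subtype.ext h'.symm
  · intro h
    exact absurd (Finset.mem_univ _) h

lemma simple_ineq (h1 : 1 < p.toReal) (htop : p ≠ ∞) {q τ m : ℝ}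
    (hpq : p.toReal.HolderConjugate q) (hτ : 0 < τ)
    (hm : m * (1 + τ ^ p.toReal) = τ - τ ^ (p.toReal - 1)) (hm0 : 0 ≤ m)
    {T : Lp ℝ p μ →L[ℝ] Lp ℝ p μ} (hT : IsNarrow T) (r : SimpleFunc Ω (ℝ × ℝ))
    {X Y : Lp ℝ p μ} (hX : X =ᵐ[μ] fun ω => (r ω).1) (hY : Y =ᵐ[μ] fun ω => (r ω).2) :
    m * ∫ ω, J p.toReal (Y ω) * T X ω ∂μ ≤
      numRadius ℝ T * (‖X‖ ^ p.toReal / p.toReal + ‖Y‖ ^ p.toReal / q) := by
  classical
  set P := p.toReal with hP
  set A : {c // c ∈ cells μ r} → Set Ω := fun c => r ⁻¹' {c.1} with hA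
  have hAm : ∀ c, MeasurableSet (A c) := fun c => r.measurableSet_fiber c.1
  have hAd : Pairwise fun c d => Disjoint (A c) (A d) := by
    intro c d hcd
    rw [Set.disjoint_left]
    intro ω h2 h3
    have h2' : r ω = c.1 := h2
    have h3' : r ω = d.1 := h3
    exact hcd (Subtype.ext (h2'.symm.trans h3'))
  have hX' : step p μ A (fun c => c.1.1) = X := step_pair r Prod.fst hX
  have hY' : step p μ A (fun c => c.1.2) = Y := step_pair r Prod.snd hY
  have hw : ∀ c, 0 < μ.real (A c) := by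
    intro c
    have h2 := (Finset.mem_filter.mp c.2).2
    exact ENNReal.toReal_pos h2 (measure_ne_top μ _)
  have key := finite_main hpq hτ hm hm0 (numRadius_nonneg T) hw
    (relaxed_of_narrow h1 htop hT hAm hAd) (fun c => J P c.1.2) (fun c => c.1.1)
  have e1 : Bf (mat T A) (fun c => J P c.1.2) (fun c => c.1.1) =
      ∫ ω, J P (Y ω) * T X ω ∂μ := by
    rw [Bf_left_sum]
    have h2 := integral_step_mul (p := p) (μ := μ) hAm hAd (fun c => c.1.2) (J P) (J_zero P)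
      (g := fun ω => T X ω) (Lp_integrable (T X))
    rw [hY'] at h2
    rw [h2]
    refine Finset.sum_congr rfl fun c _ => ?_
    rw [mat_sum, hX']
  have e2 : Ng P q (fun c => μ.real (A c)) (fun c => c.1.1) (fun c => J P c.1.2) =
      ‖X‖ ^ P / P + ‖Y‖ ^ P / q := by
    have h2 := norm_step (μ := μ) h1 htop hAm hAd (fun c => c.1.1)
    have h3 := norm_step (μ := μ) h1 htop hAm hAd (fun c => c.1.2)
    rw [hX'] at h2
    rw [hY'] at h3
    rw [h2, h3, Finset.sum_div, Finset.sum_div, ← Finset.sum_add_distrib]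
    unfold Ng
    refine Finset.sum_congr rfl fun c _ => ?_
    have h4 : |J P c.1.2| ^ q = |c.1.2| ^ P := by
      rw [abs_J h1, ← Real.rpow_mul (abs_nonneg _)]
      congr 1
      have := hpq.mul_eq_add
      linarith
    rw [h4]
    ring
  rw [e1, e2] at key
  exact key

lemma exists_seq (htop : p ≠ ∞) (X : Lp ℝ p μ) :
    ∃ u : ℕ → Lp.simpleFunc ℝ p μ, Tendsto (fun n => (u n : Lp ℝ p μ)) atTop (𝓝 X) := by
  have h := (Lp.simpleFunc.denseRange (E := ℝ) (μ := μ) htop) X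
  rw [mem_closure_iff_seq_limit] at h
  obtain ⟨x, hx, hlim⟩ := h
  choose u hu using hx
  refine ⟨u, ?_⟩
  have : (fun n => (u n : Lp ℝ p μ)) = x := funext hu
  rw [this]
  exact hlim

lemma J_self_integral (h1 : 1 < p.toReal) (htop : p ≠ ∞) (Y : Lp ℝ p μ) :
    ∫ ω, J p.toReal (Y ω) * Y ω ∂μ = ‖Y‖ ^ p.toReal := by
  rw [norm_rpow' h1 htop]
  exact integral_congr_ae (ae_of_all _ fun ω => J_mul_self h1 _)

lemma J_integrable_mul (h1 : 1 < p.toReal) (htop : p ≠ ∞) (Y g : Lp ℝ p μ) :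
    Integrable (fun ω => J p.toReal (Y ω) * g ω) μ := by
  refine (Pool.Agent.Y825.RK.integrable_J_mul h1 htop Y g).congr (ae_of_all _ fun ω => ?_)
  show Pool.Agent.Y825.RK.J p.toReal (Y ω) * g ω = _
  rw [RKJ]

/-- the inequality for arbitrary elements -/
lemma general_ineq (h1 : 1 < p.toReal) (htop : p ≠ ∞) {q τ m : ℝ}
    (hpq : p.toReal.HolderConjugate q) (hτ : 0 < τ)
    (hm : m * (1 + τ ^ p.toReal) = τ - τ ^ (p.toReal - 1)) (hm0 : 0 ≤ m)
    {T : Lp ℝ p μ →L[ℝ] Lp ℝ p μ} (hT : IsNarrow T) (X Y : Lp ℝ p μ) {c : ℝ}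
    (hc : T X = c • Y) :
    m * (c * ‖Y‖ ^ p.toReal) ≤
      numRadius ℝ T * (‖X‖ ^ p.toReal / p.toReal + ‖Y‖ ^ p.toReal / q) := by
  obtain ⟨u, hu⟩ := exists_seq htop X
  obtain ⟨w, hw⟩ := exists_seq htop Y
  have hp0 : 0 < p.toReal := by linarith
  have key : ∀ n, m * (c * ‖(w n : Lp ℝ p μ)‖ ^ p.toReal -
      ‖(w n : Lp ℝ p μ)‖ ^ (p.toReal - 1) * ‖T (u n : Lp ℝ p μ) - c • (w n : Lp ℝ p μ)‖) ≤
      numRadius ℝ T * (‖(u n : Lp ℝ p μ)‖ ^ p.toReal / p.toReal +
        ‖(w n : Lp ℝ p μ)‖ ^ p.toReal / q) := by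
    intro n
    set r : SimpleFunc Ω (ℝ × ℝ) := (Lp.simpleFunc.toSimpleFunc (u n)).pair
      (Lp.simpleFunc.toSimpleFunc (w n)) with hr
    have hX : (u n : Lp ℝ p μ) =ᵐ[μ] fun ω => (r ω).1 :=
      (Lp.simpleFunc.toSimpleFunc_eq_toFun (u n)).symm
    have hY : (w n : Lp ℝ p μ) =ᵐ[μ] fun ω => (r ω).2 :=
      (Lp.simpleFunc.toSimpleFunc_eq_toFun (w n)).symm
    have h2 := simple_ineq h1 htop hpq hτ hm hm0 hT r hX hY
    refine le_trans (mul_le_mul_of_nonneg_left ?_ hm0) h2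
    have h3 : ∫ ω, J p.toReal ((w n : Lp ℝ p μ) ω) * T (u n : Lp ℝ p μ) ω ∂μ =
        c * ‖(w n : Lp ℝ p μ)‖ ^ p.toReal + ∫ ω, J p.toReal ((w n : Lp ℝ p μ) ω) *
          (T (u n : Lp ℝ p μ) - c • (w n : Lp ℝ p μ) : Lp ℝ p μ) ω ∂μ := by
      rw [← J_self_integral h1 htop, ← integral_const_mul,
        ← integral_add ((J_integrable_mul h1 htop _ _).const_mul c) (J_integrable_mul h1 htop _ _)]
      apply integral_congr_ae
      filter_upwards [Lp.coeFn_sub (T (u n : Lp ℝ p μ)) (c • (w n : Lp ℝ p μ)),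
        Lp.coeFn_smul c (w n : Lp ℝ p μ)] with ω e1 e2
      rw [e1, Pi.sub_apply, e2, Pi.smul_apply, smul_eq_mul]
      ring
    have h4 := holder h1 htop (w n : Lp ℝ p μ) (T (u n : Lp ℝ p μ) - c • (w n : Lp ℝ p μ))
    have h5 := (abs_le.mp h4).1
    rw [h3]
    linarith
  have hP1 : 0 ≤ p.toReal - 1 := by linarith
  have l1 : Tendsto (fun n => ‖(w n : Lp ℝ p μ)‖) atTop (𝓝 ‖Y‖) := hw.norm
  have l2 : Tendsto (fun n => ‖(u n : Lp ℝ p μ)‖) atTop (𝓝 ‖X‖) := hu.norm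
  have l3 : Tendsto (fun n => ‖T (u n : Lp ℝ p μ) - c • (w n : Lp ℝ p μ)‖) atTop (𝓝 0) := by
    have h2 : Tendsto (fun n => T (u n : Lp ℝ p μ) - c • (w n : Lp ℝ p μ)) atTop
        (𝓝 (T X - c • Y)) := ((T.continuous.tendsto X).comp hu).sub (hw.const_smul c)
    rw [hc, sub_self] at h2
    simpa using h2.norm
  have l4 := l1.rpow_const (p := p.toReal) (Or.inr hp0.le)
  have l5 := l1.rpow_const (p := p.toReal - 1) (Or.inr hP1)
  have l6 := l2.rpow_const (p := p.toReal) (Or.inr hp0.le)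
  have L : Tendsto (fun n => m * (c * ‖(w n : Lp ℝ p μ)‖ ^ p.toReal -
      ‖(w n : Lp ℝ p μ)‖ ^ (p.toReal - 1) * ‖T (u n : Lp ℝ p μ) - c • (w n : Lp ℝ p μ)‖)) atTop
      (𝓝 (m * (c * ‖Y‖ ^ p.toReal - ‖Y‖ ^ (p.toReal - 1) * 0))) :=
    ((l4.const_mul c).sub (l5.mul l3)).const_mul m
  have R : Tendsto (fun n => numRadius ℝ T * (‖(u n : Lp ℝ p μ)‖ ^ p.toReal / p.toReal +
        ‖(w n : Lp ℝ p μ)‖ ^ p.toReal / q)) atTop
      (𝓝 (numRadius ℝ T * (‖X‖ ^ p.toReal / p.toReal + ‖Y‖ ^ p.toReal / q))) :=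
    ((l6.div_const _).add (l4.div_const _)).const_mul _
  have := le_of_tendsto_of_tendsto' L R key
  rwa [mul_zero, sub_zero] at this

/-- **Lower bound.**  For a narrow operator on `L_p(μ)` and every `τ > 0` with
`m = (τ - τ^(p-1)) / (1 + τ^p) ≥ 0`, `m ‖T‖ ≤ v(T)`. -/
theorem lower (h1 : 1 < p.toReal) (htop : p ≠ ∞) {τ m : ℝ} (hτ : 0 < τ)
    (hm : m * (1 + τ ^ p.toReal) = τ - τ ^ (p.toReal - 1)) (hm0 : 0 ≤ m)
    {T : Lp ℝ p μ →L[ℝ] Lp ℝ p μ} (hT : IsNarrow T) : m * ‖T‖ ≤ numRadius ℝ T := by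
  have hpq : p.toReal.HolderConjugate (p.toReal / (p.toReal - 1)) :=
    Real.HolderConjugate.conjExponent h1
  rcases hm0.eq_or_lt with h0 | h0
  · rw [← h0, zero_mul]; exact numRadius_nonneg T
  rw [mul_comm, ← le_div_iff₀ h0]
  refine ContinuousLinearMap.opNorm_le_bound T (div_nonneg (numRadius_nonneg T) hm0) fun X => ?_
  by_cases hX : X = 0
  · rw [hX]; simp
  by_cases hTX : T X = 0
  · rw [hTX, norm_zero]
    exact mul_nonneg (div_nonneg (numRadius_nonneg T) hm0) (norm_nonneg _)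
  have hx : 0 < ‖X‖ := norm_pos_iff.mpr hX
  have hy : 0 < ‖T X‖ := norm_pos_iff.mpr hTX
  set t : ℝ := ‖X‖ / ‖T X‖ with ht
  have ht0 : 0 < t := div_pos hx hy
  have hYn : ‖t • T X‖ = ‖X‖ := by
    rw [norm_smul, Real.norm_of_nonneg ht0.le, ht]; field_simp
  have key := general_ineq h1 htop hpq hτ hm hm0 hT X (t • T X) (c := t⁻¹)
    (by rw [smul_smul, inv_mul_cancel₀ ht0.ne', one_smul])
  rw [hYn] at key
  have hsum : ‖X‖ ^ p.toReal / p.toReal + ‖X‖ ^ p.toReal / (p.toReal / (p.toReal - 1)) =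
      ‖X‖ ^ p.toReal := by
    have := hpq.inv_add_inv_eq_one
    rw [div_eq_mul_inv, div_eq_mul_inv _ (p.toReal / (p.toReal - 1)), ← mul_add, this, mul_one]
  rw [hsum, ← mul_assoc] at key
  have hpow : 0 < ‖X‖ ^ p.toReal := Real.rpow_pos_of_pos hx _
  have h2 : m * t⁻¹ ≤ numRadius ℝ T := le_of_mul_le_mul_right key hpow
  rw [ht, inv_div] at h2
  rw [div_mul_eq_mul_div, le_div_iff₀ h0]
  have h3 : m * (‖T X‖ / ‖X‖) = (‖T X‖ * m) / ‖X‖ := by ring
  rw [h3, div_le_iff₀ hx] at h2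
  exact h2

/-- **Lower bound.**  `M_p ‖T‖ ≤ v(T)` for every narrow operator. -/
theorem lower_bigM (h1 : 1 < p.toReal) (htop : p ≠ ∞)
    {T : Lp ℝ p μ →L[ℝ] Lp ℝ p μ} (hT : IsNarrow T) :
    bigM p.toReal * ‖T‖ ≤ numRadius ℝ T := by
  rcases (norm_nonneg T).eq_or_lt with h0 | h0
  · rw [← h0, mul_zero]; exact numRadius_nonneg T
  rw [← le_div_iff₀ h0]
  set P := p.toReal with hP
  refine csSup_le (Set.Nonempty.image _ ⟨0, by simp⟩) ?_
  rintro _ ⟨t, ht, rfl⟩
  rw [le_div_iff₀ h0]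
  rcases ht.1.eq_or_lt with h | ht0
  · subst h
    simp only
    rw [Real.zero_rpow (by linarith), sub_self, abs_zero, zero_div, zero_mul]
    exact numRadius_nonneg T
  have hq : 0 < 1 + t ^ P := by positivity
  rcases le_total (t ^ (P - 1)) t with h | h
  · have habs : |t ^ (P - 1) - t| = t - t ^ (P - 1) := by
      rw [abs_sub_comm, abs_of_nonneg (by linarith)]
    simp only
    rw [habs]
    refine lower h1 htop ht0 (m := (t - t ^ (P - 1)) / (1 + t ^ P)) ?_
      (div_nonneg (by linarith) hq.le) hT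
    rw [div_mul_cancel₀ _ hq.ne']
  · have habs : |t ^ (P - 1) - t| = t ^ (P - 1) - t := abs_of_nonneg (by linarith)
    simp only
    rw [habs]
    refine lower h1 htop (inv_pos.mpr ht0) (m := (t ^ (P - 1) - t) / (1 + t ^ P)) ?_
      (div_nonneg (by linarith) hq.le) hT
    rw [← hP, Real.inv_rpow ht0.le, Real.inv_rpow ht0.le]
    have e1 : t ^ P = t ^ (P - 1) * t := by
      rw [← Real.rpow_add_one ht0.ne']; congr 1; ring
    have hs : 0 < t ^ (P - 1) := by positivity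
    rw [e1] at hq ⊢
    field_simp
    ring

end Pool.Agent.K3h11.Nar
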