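import Pool.Agent.K3h11.Nar.Up
import Pool.Agent.Y772.NI.Dual

/-!
# The narrow numerical index of `L_p(μ)` and comparison with the numerical index
-/

set_option autoImplicit false
set_option linter.unusedSectionVars false

open MeasureTheory Set Filter Topology
open scoped ENNReal

namespace Pool.Agent.K3h11.Nar

open Pool.Agent.Y772.NI (numRadius numIndex bigM numRadius_nonneg)

variable {Ω : Type} [MeasurableSpace Ω] {μ : Measure Ω} [IsFiniteMeasure μ]
  {p : ℝ≥0∞} [Fact (1 ≤ p)]

section Iter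

variable {ι : Type*} [Fintype ι] [DecidableEq ι]

lemma opT_step {w : ℝ} (hw : 0 < w) {A : ι → Set Ω} (hA : ∀ i, MeasurableSet (A i))
    (hd : Pairwise fun i j => Disjoint (A i) (A j)) (hAw : ∀ i, μ.real (A i) = w)
    (t : ι → ι → ℝ) (d : ι → ℝ) (z : ι → ℝ) :
    opT p μ w hA t d (step p μ A z) = step p μ A (fun i => ∑ j, t i j * z j + d i * z i) := by
  have e1 : ∀ j, ∫ ω in A j, step p μ A z ω ∂μ = w * z j := by
    intro j
    rw [← sI_apply]
    unfold step
    rw [map_sum, Finset.sum_eq_single j]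
    · rw [map_smul, sI_apply, smul_eq_mul]
      have : ∫ ω in A j, indS p μ (A j) ω ∂μ = w := by
        have h2 := ae_restrict_of_ae (s := A j) (indS_ae (p := p) (μ := μ) (hA j))
        rw [integral_congr_ae h2, setIntegral_indicator (hA j), inter_self, setIntegral_const,
          smul_eq_mul, mul_one, hAw]
      rw [this]; ring
    · intro i _ hij
      rw [map_smul, sI_apply, smul_eq_mul]
      have : ∫ ω in A j, indS p μ (A i) ω ∂μ = 0 := by
        have h2 := ae_restrict_of_ae (s := A j) (indS_ae (p := p) (μ := μ) (hA i))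
        rw [integral_congr_ae h2, setIntegral_indicator (hA i),
          Set.disjoint_iff_inter_eq_empty.mp (hd hij.symm), setIntegral_empty]
      rw [this, mul_zero]
    · intro h; exact absurd (Finset.mem_univ j) h
  have e2 : ∀ i, mulInd p μ (hA i) (step p μ A z) = z i • indS p μ (A i) := by
    intro i
    apply Lp.ext
    filter_upwards [mulInd_ae (hA i) (step p μ A z), step_ae (p := p) (μ := μ) hA z,
      Lp.coeFn_smul (z i) (indS p μ (A i)), indS_ae (p := p) (μ := μ) (hA i)] with ω h1 h2 h3 h4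
    rw [h1, h3, Pi.smul_apply, h4, smul_eq_mul]
    by_cases h : ω ∈ A i
    · rw [indicator_of_mem h, indicator_of_mem h, h2, Finset.sum_eq_single i]
      · rw [indicator_of_mem h]
      · intro j _ hji
        rw [indicator_of_notMem (fun hj => Set.disjoint_left.mp (hd hji) hj h), mul_zero]
      · intro h; exact absurd (Finset.mem_univ i) h
    · rw [indicator_of_notMem h, indicator_of_notMem h, mul_zero]
  rw [opT_apply]
  unfold step at *
  rw [← Finset.sum_add_distrib]
  refine Finset.sum_congr rfl fun i _ => ?_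
  rw [e2, add_smul, Finset.sum_smul, smul_smul]
  congr 1
  refine Finset.sum_congr rfl fun j _ => ?_
  rw [e1, smul_smul]
  congr 1
  field_simp

end Iter

/-! ### the pointwise bound -/

lemma bigM_bdd {P : ℝ} (hP : 1 < P) :
    BddAbove ((fun t : ℝ => |t ^ (P - 1) - t| / (1 + t ^ P)) '' Icc 0 1) := by
  refine ⟨1, ?_⟩
  rintro _ ⟨t, ht, rfl⟩
  have h1 : 0 ≤ t ^ P := Real.rpow_nonneg ht.1 _
  have h2 : 0 ≤ t ^ (P - 1) := Real.rpow_nonneg ht.1 _
  have h3 : t ^ (P - 1) ≤ 1 := Real.rpow_le_one ht.1 ht.2 (by linarith)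
  simp only
  rw [div_le_one (by linarith)]
  have : |t ^ (P - 1) - t| ≤ 1 := by
    rw [abs_le]; constructor <;> linarith [ht.1, ht.2]
  linarith

lemma le_bigM {P t : ℝ} (hP : 1 < P) (ht : 0 ≤ t) (ht1 : t ≤ 1) :
    |t ^ (P - 1) - t| ≤ bigM P * (1 + t ^ P) := by
  have h1 : 0 ≤ t ^ P := Real.rpow_nonneg ht _
  rw [← div_le_iff₀ (by linarith)]
  exact le_csSup (bigM_bdd hP) ⟨t, ⟨ht, ht1⟩, rfl⟩

lemma bigM_nonneg {P : ℝ} (hP : 1 < P) : 0 ≤ bigM P := by
  have h := le_bigM hP (le_refl (0:ℝ)) zero_le_one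
  rw [Real.zero_rpow (by linarith), Real.zero_rpow (by linarith)] at h
  simpa using h

lemma plane_bound {P : ℝ} (hP : 1 < P) (a b : ℝ) :
    |J P a * b - J P b * a| ≤ bigM P * (|a| ^ P + |b| ^ P) := by
  have key : ∀ a b : ℝ, |b| ≤ |a| → |J P a * b - J P b * a| ≤ bigM P * (|a| ^ P + |b| ^ P) := by
    intro a b hab
    rcases eq_or_ne a 0 with h | h
    · have hb : b = 0 := by
        rw [h, abs_zero] at hab
        exact abs_nonpos_iff.mp hab
      rw [h, hb, J_zero]
      simp only [mul_zero, sub_zero, abs_zero]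
      rw [Real.zero_rpow (by linarith)]
      simp
    · have ha : 0 < |a| := abs_pos.mpr h
      set s := b / a with hs
      have hb : b = s * a := by rw [hs]; field_simp
      have hs1 : |s| ≤ 1 := by
        rw [hs, abs_div, div_le_one ha]; exact hab
      have e1 : J P a * b - J P b * a = |a| ^ P * (s - J P s) := by
        rw [hb, J_mul, ← J_mul_self hP a]; ring
      have e2 : |b| ^ P = |a| ^ P * |s| ^ P := by
        rw [hb, abs_mul, Real.mul_rpow (abs_nonneg _) (abs_nonneg _)]; ring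
      have e3 : |s - J P s| = |(|s| ^ (P - 1) - |s|)| := by
        rcases le_total 0 s with h0 | h0
        · rcases h0.eq_or_lt with h00 | h00
          · rw [← h00, J_zero, abs_zero, Real.zero_rpow (by linarith)]
          · rw [J_of_pos h00, abs_of_pos h00, abs_sub_comm]
        · rcases h0.eq_or_lt with h00 | h00
          · rw [h00, J_zero, abs_zero, Real.zero_rpow (by linarith)]
          · have h3 := J_of_pos (p := P) (z := -s) (by linarith)
            rw [J_neg] at h3
            rw [abs_of_neg h00, ← h3]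
            congr 1; ring
      have h4 := le_bigM hP (abs_nonneg s) hs1
      rw [e1, e2, abs_mul, e3, abs_of_nonneg (by positivity : 0 ≤ |a| ^ P)]
      calc |a| ^ P * |(|s| ^ (P - 1) - |s|)| ≤ |a| ^ P * (bigM P * (1 + |s| ^ P)) := by gcongr
        _ = _ := by ring
  rcases le_total |b| |a| with h | h
  · exact key a b h
  · have := key b a h
    rw [abs_sub_comm, add_comm (|a| ^ P)]
    exact this

/-! ### partitions -/

lemma sierp_real (hμ : Atomless μ) {A : Set Ω} (hA : MeasurableSet A) {c : ℝ} (h0 : 0 ≤ c)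
    (hc : c ≤ μ.real A) : ∃ B, MeasurableSet B ∧ B ⊆ A ∧ μ.real B = c := by
  obtain ⟨B, hB, hBA, hBc⟩ := sierpinski hμ hA (c := ENNReal.ofReal c)
    (by rw [← ofReal_measureReal (measure_ne_top μ A)]; exact ENNReal.ofReal_le_ofReal hc)
  exact ⟨B, hB, hBA, by rw [measureReal_def, hBc, ENNReal.toReal_ofReal h0]⟩

lemma partition2 (hμ : Atomless μ) (h0 : μ univ ≠ 0) : ∃ (w : ℝ) (A : Fin 2 → Set Ω),
    0 < w ∧ (∀ i, MeasurableSet (A i)) ∧ (Pairwise fun i j => Disjoint (A i) (A j)) ∧
      (∀ i, μ.real (A i) = w) ∧ A 0 ∪ A 1 = univ := by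
  have hpos : 0 < μ.real univ := ENNReal.toReal_pos h0 (measure_ne_top μ _)
  obtain ⟨B, hB, _, hBm⟩ := sierp_real hμ MeasurableSet.univ (c := μ.real univ / 2)
    (by positivity) (by linarith)
  refine ⟨μ.real univ / 2, ![B, Bᶜ], by positivity, ?_, ?_, ?_, ?_⟩
  · intro i; fin_cases i
    · exact hB
    · exact hB.compl
  · intro i j hij
    fin_cases i <;> fin_cases j
    · exact absurd rfl hij
    · exact disjoint_compl_right
    · exact disjoint_compl_left
    · exact absurd rfl hij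
  · intro i; fin_cases i
    · exact hBm
    · show μ.real Bᶜ = _
      rw [measureReal_compl hB, hBm]; ring
  · exact union_compl_self B

lemma partition3 (hμ : Atomless μ) (h0 : μ univ ≠ 0) : ∃ (w : ℝ) (A : Fin 3 → Set Ω),
    0 < w ∧ (∀ i, MeasurableSet (A i)) ∧ (Pairwise fun i j => Disjoint (A i) (A j)) ∧
      (∀ i, μ.real (A i) = w) := by
  have hpos : 0 < μ.real univ := ENNReal.toReal_pos h0 (measure_ne_top μ _)
  obtain ⟨B, hB, _, hBm⟩ := sierp_real hμ MeasurableSet.univ (c := μ.real univ / 3)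
    (by positivity) (by linarith)
  have hBc : μ.real Bᶜ = 2 * (μ.real univ / 3) := by
    rw [measureReal_compl hB, hBm]; ring
  obtain ⟨C, hC, hCB, hCm⟩ := sierp_real hμ hB.compl (c := μ.real univ / 3)
    (by positivity) (by rw [hBc]; linarith)
  refine ⟨μ.real univ / 3, ![B, C, Bᶜ \ C], by positivity, ?_, ?_, ?_⟩
  · intro i; fin_cases i
    · exact hB
    · exact hC
    · exact hB.compl.diff hC
  · have d1 : Disjoint B C := disjoint_compl_right.mono_right hCB
    have d2 : Disjoint B (Bᶜ \ C) := disjoint_compl_right.mono_right sdiff_subset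
    have d3 : Disjoint C (Bᶜ \ C) := disjoint_sdiff_right
    intro i j hij
    fin_cases i <;> fin_cases j
    · exact absurd rfl hij
    · exact d1
    · exact d2
    · exact d1.symm
    · exact absurd rfl hij
    · exact d3
    · exact d2.symm
    · exact d3.symm
    · exact absurd rfl hij
  · intro i; fin_cases i
    · exact hBm
    · exact hCm
    · show μ.real (Bᶜ \ C) = _
      rw [measureReal_sdiff hCB hC, hBc, hCm]; ring

/-! ### the rotation operator -/

/-- the matrix of the rotation -/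
def rt : Fin 2 → Fin 2 → ℝ := ![![0, -1], ![1, 0]]

lemma rt_diag (i : Fin 2) : rt i i = 0 := by fin_cases i <;> simp [rt]

lemma rot_radius (h1 : 1 < p.toReal) (htop : p ≠ ∞) {w : ℝ} (hw : 0 < w)
    {A : Fin 2 → Set Ω} (hA : ∀ i, MeasurableSet (A i))
    (hd : Pairwise fun i j => Disjoint (A i) (A j)) (hAw : ∀ i, μ.real (A i) = w) :
    numRadius ℝ (opT p μ w hA rt 0) ≤ bigM p.toReal := by
  refine opT_radius h1 htop hw hA hd hAw (bigM_nonneg h1) rt_diag 0 fun z => ?_
  have e : ∑ i, (0 : Fin 2 → ℝ) i * |z i| ^ p.toReal + Bf rt (fun i => J p.toReal (z i)) z =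
      -(J p.toReal (z 0) * z 1 - J p.toReal (z 1) * z 0) := by
    unfold Bf rt
    simp [Fin.sum_univ_two]
    ring
  rw [e, abs_neg, Fin.sum_univ_two]
  exact plane_bound h1 _ _

lemma young {P : ℝ} (hP : 1 < P) (m s : ℝ) : P * J P m * s ≤ |s| ^ P + (P - 1) * |m| ^ P := by
  have hpq : P.HolderConjugate (P / (P - 1)) := Real.HolderConjugate.conjExponent hP
  have h := Real.young_inequality_of_nonneg (a := |s|) (b := |m| ^ (P - 1)) (abs_nonneg _)
    (by positivity) hpq
  have e1 : (|m| ^ (P - 1)) ^ (P / (P - 1)) = |m| ^ P := by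
    rw [← Real.rpow_mul (abs_nonneg _)]
    congr 1
    field_simp [show P - 1 ≠ 0 by linarith]
  rw [e1] at h
  have h2 : J P m * s ≤ |s| * |m| ^ (P - 1) := by
    calc J P m * s ≤ |J P m * s| := le_abs_self _
      _ = |s| * |m| ^ (P - 1) := by rw [abs_mul, abs_J hP, mul_comm]
  have hP0 : 0 < P := by linarith
  have h3 : P * (|s| ^ P / P + |m| ^ P / (P / (P - 1))) = |s| ^ P + (P - 1) * |m| ^ P := by
    field_simp
  rw [← h3]
  calc P * J P m * s = P * (J P m * s) := by ring
    _ ≤ P * (|s| ^ P / P + |m| ^ P / (P / (P - 1))) := by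
        gcongr
        exact h2.trans h

/-- Jensen -/
lemma jensen (h1 : 1 < p.toReal) (htop : p ≠ ∞) {A : Set Ω} (hA : MeasurableSet A) {w : ℝ}
    (hw : 0 < w) (hAw : μ.real A = w) (f : Lp ℝ p μ) :
    |(∫ ω in A, f ω ∂μ) / w| ^ p.toReal ≤ (∫ ω in A, |f ω| ^ p.toReal ∂μ) / w := by
  set m := (∫ ω in A, f ω ∂μ) / w with hm
  have h2 := avg h1 htop hA hw hAw f (a := 1) (b := 0) (c := -(p.toReal * J p.toReal m))
    (d := (p.toReal - 1) * |m| ^ p.toReal) (fun s => by
      have := young h1 m s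
      linarith)
  rw [← hm] at h2
  have h3 := J_mul_self h1 m
  have h4 : p.toReal * J p.toReal m * m = p.toReal * |m| ^ p.toReal := by rw [← h3]; ring
  linarith

lemma rot_apply (w : ℝ) {A : Fin 2 → Set Ω} (hA : ∀ i, MeasurableSet (A i)) (f : Lp ℝ p μ) :
    opT p μ w hA rt 0 f =
      step p μ A ![-((∫ ω in A 1, f ω ∂μ) / w), (∫ ω in A 0, f ω ∂μ) / w] := by
  rw [opT_apply]
  unfold step rt
  simp only [Fin.sum_univ_two, Matrix.cons_val_zero, Matrix.cons_val_one, Pi.zero_apply,
    zero_smul, zero_div, add_zero, smul_smul]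
  have e0 : (0 * ∫ ω in A 0, f ω ∂μ) = 0 := by ring
  have e1 : (0 * ∫ ω in A 1, f ω ∂μ) = 0 := by ring
  rw [e0, e1, zero_smul, zero_smul, zero_add, add_zero]
  congr 2
  · ring
  · ring

lemma rot_norm_le (h1 : 1 < p.toReal) (htop : p ≠ ∞) {w : ℝ} (hw : 0 < w)
    {A : Fin 2 → Set Ω} (hA : ∀ i, MeasurableSet (A i))
    (hd : Pairwise fun i j => Disjoint (A i) (A j)) (hAw : ∀ i, μ.real (A i) = w)
    (hu : A 0 ∪ A 1 = univ) : ‖opT p μ w hA rt 0‖ ≤ 1 := by
  refine ContinuousLinearMap.opNorm_le_bound _ zero_le_one fun f => ?_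
  rw [one_mul]
  have hP0 : 0 < p.toReal := by linarith
  have hle : ‖opT p μ w hA rt 0 f‖ ^ p.toReal ≤ ‖f‖ ^ p.toReal := by
    rw [rot_apply, norm_step h1 htop hA hd, Fin.sum_univ_two, hAw, hAw]
    simp only [Matrix.cons_val_zero, Matrix.cons_val_one, abs_neg]
    have j0 := jensen h1 htop (hA 0) hw (hAw 0) f
    have j1 := jensen h1 htop (hA 1) hw (hAw 1) f
    have i1 : Integrable (fun ω => |f ω| ^ p.toReal) μ :=
      Pool.Agent.Y825.RK.integrable_rpow h1 htop f
    have hsum : ∫ ω in A 0, |f ω| ^ p.toReal ∂μ + ∫ ω in A 1, |f ω| ^ p.toReal ∂μ =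
        ‖f‖ ^ p.toReal := by
      rw [← setIntegral_union (hd (by decide)) (hA 1) i1.integrableOn i1.integrableOn, hu,
        setIntegral_univ, norm_rpow' h1 htop]
    rw [← hsum]
    have k0 : w * ((∫ ω in A 0, |f ω| ^ p.toReal ∂μ) / w) = ∫ ω in A 0, |f ω| ^ p.toReal ∂μ := by
      field_simp
    have k1 : w * ((∫ ω in A 1, |f ω| ^ p.toReal ∂μ) / w) = ∫ ω in A 1, |f ω| ^ p.toReal ∂μ := by
      field_simp
    have l0 := mul_le_mul_of_nonneg_left j0 hw.le
    have l1 := mul_le_mul_of_nonneg_left j1 hw.le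
    linarith
  exact (Real.rpow_le_rpow_iff (norm_nonneg _) (norm_nonneg _) hP0).mp hle

lemma rot_norm (h1 : 1 < p.toReal) (htop : p ≠ ∞) {w : ℝ} (hw : 0 < w)
    {A : Fin 2 → Set Ω} (hA : ∀ i, MeasurableSet (A i))
    (hd : Pairwise fun i j => Disjoint (A i) (A j)) (hAw : ∀ i, μ.real (A i) = w)
    (hu : A 0 ∪ A 1 = univ) : ‖opT p μ w hA rt 0‖ = 1 := by
  refine le_antisymm (rot_norm_le h1 htop hw hA hd hAw hu) ?_
  have hP0 : 0 < p.toReal := by linarith
  set f : Lp ℝ p μ := step p μ A ![1, 0] with hf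
  have hfn : ‖f‖ ^ p.toReal = w := by
    rw [hf, norm_step h1 htop hA hd, Fin.sum_univ_two, hAw, hAw]
    simp [Real.zero_rpow hP0.ne']
  have hTf : ‖opT p μ w hA rt 0 f‖ ^ p.toReal = w := by
    rw [hf, opT_step hw hA hd hAw, norm_step h1 htop hA hd, Fin.sum_univ_two, hAw, hAw]
    unfold rt
    simp [Fin.sum_univ_two, Real.zero_rpow hP0.ne']
  have heq : ‖opT p μ w hA rt 0 f‖ = ‖f‖ := by
    have h2 : ‖opT p μ w hA rt 0 f‖ ^ p.toReal = ‖f‖ ^ p.toReal := by rw [hTf, hfn]
    exact (Real.rpow_left_inj (norm_nonneg _) (norm_nonneg _) hP0.ne').mp h2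
  have hf0 : 0 < ‖f‖ := by
    rcases (norm_nonneg f).eq_or_lt with h | h
    · rw [← h, Real.zero_rpow hP0.ne'] at hfn
      exact absurd hfn hw.ne
    · exact h
  have h3 := (opT p μ w hA rt 0).le_opNorm f
  rw [heq] at h3
  have h4 : 1 * ‖f‖ ≤ ‖opT p μ w hA rt 0‖ * ‖f‖ := by rw [one_mul]; exact h3
  exact le_of_mul_le_mul_right h4 hf0

lemma rot_narrow (hμ : Atomless μ) {w : ℝ}
    {A : Fin 2 → Set Ω} (hA : ∀ i, MeasurableSet (A i))
    (hd : Pairwise fun i j => Disjoint (A i) (A j))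
    (hu : A 0 ∪ A 1 = univ) : IsNarrow (opT p μ w hA rt 0) := by
  intro D hD ε hε
  have hex : ∀ i, ∃ B, MeasurableSet B ∧ B ⊆ D ∩ A i ∧ μ.real B = μ.real (D ∩ A i) / 2 :=
    fun i => sierp_real hμ (hD.inter (hA i)) (by positivity)
      (by linarith [measureReal_nonneg (μ := μ) (s := D ∩ A i)])
  choose B hB hBD hBm using hex
  set B' := B 0 ∪ B 1 with hB'
  have hB'm : MeasurableSet B' := (hB 0).union (hB 1)
  have hB'D : B' ⊆ D := union_subset ((hBD 0).trans inter_subset_left)
    ((hBD 1).trans inter_subset_left)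
  have hBA : ∀ i, B' ∩ A i = B i := by
    intro i
    have h01 : Disjoint (A 0) (A 1) := hd (by decide)
    fin_cases i
    · show (B 0 ∪ B 1) ∩ A 0 = B 0
      ext ω
      constructor
      · rintro ⟨h | h, h2⟩
        · exact h
        · exact absurd h2 (Set.disjoint_right.mp h01 (hBD 1 h).2)
      · intro h; exact ⟨Or.inl h, (hBD 0 h).2⟩
    · show (B 0 ∪ B 1) ∩ A 1 = B 1
      ext ω
      constructor
      · rintro ⟨h | h, h2⟩
        · exact absurd h2 (Set.disjoint_left.mp h01 (hBD 0 h).2)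
        · exact h
      · intro h; exact ⟨Or.inr h, (hBD 1 h).2⟩
  have hCA : ∀ i, (D \ B') ∩ A i = (D ∩ A i) \ B i := by
    intro i
    rw [← hBA i]
    ext ω
    constructor
    · rintro ⟨⟨h1, h2⟩, h3⟩
      exact ⟨⟨h1, h3⟩, fun h => h2 h.1⟩
    · rintro ⟨⟨h1, h2⟩, h3⟩
      exact ⟨⟨h1, fun h => h3 ⟨h, h2⟩⟩, h2⟩
  have hCm : ∀ i, μ.real ((D \ B') ∩ A i) = μ.real (B' ∩ A i) := by
    intro i
    rw [hCA, hBA, measureReal_sdiff (hBD i) (hB i), hBm]; ring
  refine ⟨B', hB'm, hD.diff hB'm, hB'D, ?_, ?_⟩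
  · have key : ∀ E : Set Ω, μ.real E = μ.real (E ∩ A 0) + μ.real (E ∩ A 1) := by
      intro E
      have h2 : (E ∩ A 0) ∪ (E ∩ A 1) = E := by rw [← inter_union_distrib_left, hu, inter_univ]
      have h01 : Disjoint (A 0) (A 1) := hd (by decide)
      rw [measureReal_def, measureReal_def, measureReal_def,
        ← ENNReal.toReal_add (measure_ne_top μ _) (measure_ne_top μ _)]
      congr 1
      have e1 : E ∩ A 1 = E \ A 0 := by
        ext ω
        constructor
        · rintro ⟨h1, h2⟩; exact ⟨h1, Set.disjoint_right.mp h01 h2⟩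
        · rintro ⟨h1, h2⟩
          have h3 : ω ∈ A 0 ∪ A 1 := by rw [hu]; trivial
          exact ⟨h1, h3.resolve_left h2⟩
      rw [e1]
      exact (measure_inter_add_sdiff E (hA 0)).symm
    have h2 : μ.real B' = μ.real (D \ B') := by
      rw [key B', key (D \ B'), hCm, hCm]
    exact (measureReal_eq_measureReal_iff).mp h2
  · have hz : opT p μ w hA rt 0 (ind p μ hB'm - ind p μ (hD.diff hB'm)) = 0 := by
      have hint : ∀ i, ∫ ω in A i, (ind p μ hB'm - ind p μ (hD.diff hB'm) : Lp ℝ p μ) ω ∂μ = 0 := by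
        intro i
        rw [← sI_apply, map_sub, sI_apply, sI_apply]
        have e : ∀ {E : Set Ω} (hE : MeasurableSet E),
            ∫ ω in A i, ind p μ hE ω ∂μ = μ.real (E ∩ A i) := by
          intro E hE
          have h3 := ae_restrict_of_ae (s := A i) (indS_ae (p := p) (μ := μ) hE)
          rw [← indS_of hE, integral_congr_ae h3, setIntegral_indicator hE, setIntegral_const,
            smul_eq_mul, mul_one, inter_comm]
        rw [e hB'm, e (hD.diff hB'm), hCm, sub_self]
      rw [rot_apply, hint, hint]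
      unfold step
      simp [Fin.sum_univ_two]
    rw [hz, norm_zero]
    exact hε

end Pool.Agent.K3h11.Nar
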