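import Pool.Agent.K3h11.Nar.Defs
import Pool.Agent.H763.Mah

/-!
# Sierpinski's theorem on the values of an atomless measure
-/

set_option autoImplicit false

open MeasureTheory Set
open scoped ENNReal

namespace Pool.Agent.K3h11.Nar

variable {Ω : Type} [m : MeasurableSpace Ω] {μ : Measure Ω} [IsFiniteMeasure μ]

theorem sierpinski (hμ : Atomless μ) {A : Set Ω} (hA : MeasurableSet A) {c : ℝ≥0∞}
    (hc : c ≤ μ A) : ∃ B, MeasurableSet B ∧ B ⊆ A ∧ μ B = c := by
  have hRA : H60Mah.RA μ ⊥ (univ : Set Ω) := by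
    intro E2 hE2 _ hpos
    obtain ⟨F, hF, hFE, hF0, hFl⟩ := hμ E2 hE2 hpos
    refine ⟨F, hF, hFE, fun B' hB' => ?_⟩
    rw [MeasurableSpace.measurableSet_bot_iff] at hB'
    rcases hB' with rfl | rfl
    · simpa using hF0.ne'
    · rw [inter_univ, symmDiff_of_le hFE]
      intro h
      have h2 : μ E2 ≤ μ F := by
        calc μ E2 ≤ μ (F ∪ (E2 \ F)) := measure_mono (by rw [union_sdiff_cancel hFE])
          _ ≤ μ F + μ (E2 \ F) := measure_union_le _ _
          _ = μ F := by
            have : μ (E2 \ F) = 0 := h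
            rw [this, add_zero]
      exact absurd hFl (not_lt.mpr h2)
  rcases isEmpty_or_nonempty Ω with hΩ | ⟨⟨ω0⟩⟩
  · refine ⟨∅, MeasurableSet.empty, empty_subset _, ?_⟩
    have : A = ∅ := Set.eq_empty_of_isEmpty A
    rw [this, measure_empty] at hc
    rw [measure_empty]
    exact (le_antisymm hc bot_le).symm
  have hSP := H60Mah.small (⊥ : MeasurableSpace Ω) μ univ
    (H60Mah.halve (⊥ : MeasurableSpace Ω) μ bot_le univ hRA)
  set lam : @Measure Ω ⊥ := c • @Measure.dirac Ω ⊥ ω0 with hlam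
  have hl : ∀ B', MeasurableSet[⊥] B' → lam B' ≤ μ (A ∩ B') := by
    intro B' hB'
    rw [MeasurableSpace.measurableSet_bot_iff] at hB'
    rcases hB' with rfl | rfl
    · simp
    · rw [inter_univ, hlam]
      simpa using hc
  obtain ⟨C, hC, hCA, hCm⟩ := H60Mah.realize (⊥ : MeasurableSpace Ω) μ bot_le univ hSP A hA
    (subset_univ _) lam hl
  refine ⟨C, hC, hCA, ?_⟩
  have := hCm univ MeasurableSet.univ
  rw [inter_univ, hlam] at this
  rw [this]
  simp

end Pool.Agent.K3h11.Nar
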