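import Pool.Agent.K3h11.Nar.Fin

/-!
# Additive set functions with small halving defect
-/

set_option autoImplicit false
set_option linter.unusedSectionVars false

open MeasureTheory Set Filter Topology
open scoped ENNReal

namespace Pool.Agent.K3h11.Nar

variable {Ω : Type*} [MeasurableSpace Ω] {μ : Measure Ω} [IsFiniteMeasure μ]
  {E : Type*} [NormedAddCommGroup E] [NormedSpace ℝ E]

/-- finitely additive set functions on the measurable sets -/
def Additive' (Λ : Set Ω → E) : Prop :=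
  ∀ A B, MeasurableSet A → MeasurableSet B → Disjoint A B → Λ (A ∪ B) = Λ A + Λ B

/-- every measurable set can be halved with small defect of `Λ` -/
def Halvable (μ : Measure Ω) (Λ : Set Ω → E) : Prop :=
  ∀ A, MeasurableSet A → ∀ ε : ℝ, 0 < ε → ∃ B, MeasurableSet B ∧ B ⊆ A ∧ μ B = μ (A \ B) ∧
    ‖Λ B - Λ (A \ B)‖ < ε

lemma Additive'.diff {Λ : Set Ω → E} (h : Additive' Λ) {A B : Set Ω} (hA : MeasurableSet A)
    (hB : MeasurableSet B) (hBA : B ⊆ A) : Λ (A \ B) = Λ A - Λ B := by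
  have h1 := h B (A \ B) hB (hA.diff hB) disjoint_sdiff_right
  rw [union_sdiff_cancel hBA] at h1
  rw [h1]; abel

lemma Additive'.empty {Λ : Set Ω → E} (h : Additive' Λ) : Λ ∅ = 0 := by
  have := h ∅ ∅ MeasurableSet.empty MeasurableSet.empty (disjoint_empty _)
  rw [union_empty] at this
  simpa using this

/-- dyadic proportions -/
lemma dyadic {Λ : Set Ω → E} (h : Additive' Λ) (hH : Halvable μ Λ) (n : ℕ) :
    ∀ (k : ℕ), k ≤ 2 ^ n → ∀ A, MeasurableSet A → ∀ ε : ℝ, 0 < ε →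
      ∃ B, MeasurableSet B ∧ B ⊆ A ∧ μ.real B = ((k : ℝ) / 2 ^ n) * μ.real A ∧
        ‖Λ B - ((k : ℝ) / 2 ^ n) • Λ A‖ < ε := by
  induction n with
  | zero =>
    intro k hk A hA ε hε
    have hk' : k ≤ 1 := by simpa using hk
    interval_cases k
    · exact ⟨∅, MeasurableSet.empty, empty_subset _, by simp, by simpa [h.empty] using hε⟩
    · exact ⟨A, hA, Subset.rfl, by simp, by simpa using hε⟩
  | succ n ih =>
    -- first for `k ≤ 2 ^ n`
    have small : ∀ (k : ℕ), k ≤ 2 ^ n → ∀ A, MeasurableSet A → ∀ ε : ℝ, 0 < ε →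
      ∃ B, MeasurableSet B ∧ B ⊆ A ∧ μ.real B = ((k : ℝ) / 2 ^ (n + 1)) * μ.real A ∧
        ‖Λ B - ((k : ℝ) / 2 ^ (n + 1)) • Λ A‖ < ε := by
      intro k hk A hA ε hε
      obtain ⟨C, hC, hCA, hCm, hCΛ⟩ := hH A hA (ε / 2) (by positivity)
      obtain ⟨B, hB, hBC, hBm, hBΛ⟩ := ih k hk C hC (ε / 2) (by positivity)
      have hreal : μ.real C = μ.real A / 2 := by
        have h1 : μ.real (A \ C) = μ.real A - μ.real C := measureReal_sdiff hCA hC
        have h2 : μ.real C = μ.real (A \ C) := by simp only [measureReal_def, hCm]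
        linarith
      refine ⟨B, hB, hBC.trans hCA, ?_, ?_⟩
      · rw [hBm, hreal, pow_succ]; field_simp
      · have hd := h.diff hA hC hCA
        have h2n : (0:ℝ) < 2 ^ n := by positivity
        have hk1 : (k : ℝ) / 2 ^ n ≤ 1 := by
          rw [div_le_one h2n]; exact_mod_cast hk
        have hk0 : 0 ≤ (k : ℝ) / 2 ^ n := by positivity
        have e : Λ B - ((k : ℝ) / 2 ^ (n + 1)) • Λ A =
            (Λ B - ((k : ℝ) / 2 ^ n) • Λ C) +
              ((k : ℝ) / 2 ^ (n + 1)) • (Λ C - Λ (A \ C)) := by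
          rw [hd]
          have : ((k : ℝ) / 2 ^ n) = 2 * ((k : ℝ) / 2 ^ (n + 1)) := by
            rw [pow_succ]; field_simp
          rw [this]
          module
        rw [e]
        have h3 : ‖((k : ℝ) / 2 ^ (n + 1)) • (Λ C - Λ (A \ C))‖ ≤ ε / 2 := by
          rw [norm_smul, Real.norm_eq_abs, abs_of_nonneg (by positivity)]
          have h4 : (k : ℝ) / 2 ^ (n + 1) ≤ 1 := by
            rw [pow_succ, ← div_div]
            linarith
          calc (k : ℝ) / 2 ^ (n + 1) * ‖Λ C - Λ (A \ C)‖ ≤ 1 * ‖Λ C - Λ (A \ C)‖ := by gcongr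
            _ ≤ ε / 2 := by rw [one_mul]; exact hCΛ.le
        calc _ ≤ _ + _ := norm_add_le _ _
          _ < ε / 2 + ε / 2 := by linarith
          _ = ε := by ring
    intro k hk A hA ε hε
    rcases le_or_gt k (2 ^ n) with hkn | hkn
    · exact small k hkn A hA ε hε
    · obtain ⟨B, hB, hBA, hBm, hBΛ⟩ := small (2 ^ (n + 1) - k) (by
        rw [pow_succ]; omega) A hA ε hε
      have hcast : ((2 ^ (n + 1) - k : ℕ) : ℝ) / 2 ^ (n + 1) = 1 - (k : ℝ) / 2 ^ (n + 1) := by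
        rw [Nat.cast_sub hk, sub_div]
        push_cast
        rw [div_self (by positivity)]
      rw [hcast] at hBm hBΛ
      refine ⟨A \ B, hA.diff hB, sdiff_subset, ?_, ?_⟩
      · rw [measureReal_sdiff hBA hB, hBm]; ring
      · rw [h.diff hA hB hBA]
        have : Λ A - Λ B - ((k : ℝ) / 2 ^ (n + 1)) • Λ A =
            -(Λ B - (1 - (k : ℝ) / 2 ^ (n + 1)) • Λ A) := by module
        rw [this, norm_neg]
        exact hBΛ

/-- arbitrary proportions, approximately -/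
lemma approx {Λ : Set Ω → E} (h : Additive' Λ) (hH : Halvable μ Λ) {θ : ℝ} (h0 : 0 ≤ θ)
    (h1 : θ ≤ 1) {A : Set Ω} (hA : MeasurableSet A) {ε : ℝ} (hε : 0 < ε) :
    ∃ B, MeasurableSet B ∧ B ⊆ A ∧ |μ.real B - θ * μ.real A| < ε ∧ ‖Λ B - θ • Λ A‖ < ε := by
  set K := μ.real A + ‖Λ A‖ + 1 with hK
  have hK0 : 0 < K := by positivity
  obtain ⟨n, hn⟩ := exists_pow_lt_of_lt_one (show 0 < ε / (2 * K) by positivity)
    (show (1/2 : ℝ) < 1 by norm_num)
  set k := ⌊θ * 2 ^ n⌋₊ with hk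
  have hθ2 : 0 ≤ θ * 2 ^ n := by positivity
  have hk1 : (k : ℝ) ≤ θ * 2 ^ n := Nat.floor_le hθ2
  have hk2 : θ * 2 ^ n < k + 1 := Nat.lt_floor_add_one _
  have h2n : (0:ℝ) < 2 ^ n := by positivity
  have hkn : k ≤ 2 ^ n := by
    have : (k : ℝ) ≤ 2 ^ n := hk1.trans (by nlinarith)
    exact_mod_cast this
  have hd0 : (k : ℝ) / 2 ^ n ≤ θ := by rw [div_le_iff₀ h2n]; exact hk1
  have hd1 : θ - (k : ℝ) / 2 ^ n ≤ (1 / 2) ^ n := by
    rw [one_div, inv_pow, ← one_div, sub_le_iff_le_add, ← add_div, le_div_iff₀ h2n]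
    linarith
  obtain ⟨B, hB, hBA, hBm, hBΛ⟩ := dyadic h hH n k hkn A hA (ε / 2) (by positivity)
  have hdK : (θ - (k : ℝ) / 2 ^ n) * K < ε / 2 := by
    have h3 : θ - (k : ℝ) / 2 ^ n < ε / (2 * K) := hd1.trans_lt hn
    calc (θ - (k : ℝ) / 2 ^ n) * K < ε / (2 * K) * K := by gcongr
      _ = ε / 2 := by field_simp
  have hdpos : 0 ≤ θ - (k : ℝ) / 2 ^ n := by linarith
  refine ⟨B, hB, hBA, ?_, ?_⟩
  · rw [hBm, ← sub_mul, abs_mul, abs_of_nonneg (measureReal_nonneg), abs_sub_comm,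
      abs_of_nonneg hdpos]
    have : (θ - (k : ℝ) / 2 ^ n) * μ.real A ≤ (θ - (k : ℝ) / 2 ^ n) * K := by
      apply mul_le_mul_of_nonneg_left _ hdpos
      rw [hK]; linarith [norm_nonneg (Λ A)]
    linarith
  · have e : Λ B - θ • Λ A = (Λ B - ((k : ℝ) / 2 ^ n) • Λ A) - (θ - (k : ℝ) / 2 ^ n) • Λ A := by
      module
    rw [e]
    have h3 : ‖(θ - (k : ℝ) / 2 ^ n) • Λ A‖ ≤ (θ - (k : ℝ) / 2 ^ n) * K := by
      rw [norm_smul, Real.norm_eq_abs, abs_of_nonneg hdpos]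
      apply mul_le_mul_of_nonneg_left _ hdpos
      rw [hK]; linarith [measureReal_nonneg (μ := μ) (s := A)]
    calc _ ≤ _ + _ := norm_sub_le _ _
      _ < ε / 2 + ε / 2 := by linarith
      _ = ε := by ring

/-- halving along the level sets of a simple function -/
lemma halve_simple {Λ : Set Ω → E} (h : Additive' Λ) (hH : Halvable μ Λ)
    (s : SimpleFunc Ω ℝ) (F : Finset ℝ) : ∀ A, MeasurableSet A → (∀ ω ∈ A, s ω ∈ F) →
      ∀ ε : ℝ, 0 < ε → ∃ B, MeasurableSet B ∧ B ⊆ A ∧ μ B = μ (A \ B) ∧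
        ‖Λ B - Λ (A \ B)‖ < ε ∧ ∫ ω in B, s ω ∂μ = ∫ ω in A \ B, s ω ∂μ := by
  classical
  induction F using Finset.induction_on with
  | empty =>
    intro A hA hs ε hε
    have hA' : A = ∅ := by
      by_contra hne
      obtain ⟨ω, hω⟩ := Set.nonempty_iff_ne_empty.mpr hne
      exact absurd (hs ω hω) (by simp)
    subst hA'
    exact ⟨∅, MeasurableSet.empty, Subset.rfl, by simp, by simpa using hε, by simp⟩
  | insert c F hc ih =>
    intro A hA hs ε hε
    set A1 := A ∩ s ⁻¹' {c} with hA1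
    set A2 := A \ s ⁻¹' {c} with hA2
    have mA1 : MeasurableSet A1 := hA.inter (s.measurableSet_fiber c)
    have mA2 : MeasurableSet A2 := hA.diff (s.measurableSet_fiber c)
    obtain ⟨B1, hB1, hB1A, hB1m, hB1Λ⟩ := hH A1 mA1 (ε / 2) (by positivity)
    obtain ⟨B2, hB2, hB2A, hB2m, hB2Λ, hB2i⟩ := ih A2 mA2 (by
      intro ω hω
      have h1 := hs ω hω.1
      rw [Finset.mem_insert] at h1
      rcases h1 with h1 | h1
      · exact absurd h1 hω.2
      · exact h1) (ε / 2) (by positivity)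
    have hdis : Disjoint A1 A2 := by
      rw [Set.disjoint_left]
      rintro ω ⟨_, h1⟩ ⟨_, h2⟩
      exact h2 h1
    have hAu : A1 ∪ A2 = A := by rw [hA1, hA2]; exact inter_union_sdiff _ _
    have hBdis : Disjoint B1 B2 := hdis.mono hB1A hB2A
    have hCdis : Disjoint (A1 \ B1) (A2 \ B2) := hdis.mono sdiff_subset sdiff_subset
    have hcompl : A \ (B1 ∪ B2) = (A1 \ B1) ∪ (A2 \ B2) := by
      rw [← hAu]
      ext ω
      constructor
      · rintro ⟨h1 | h1, h2⟩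
        · exact Or.inl ⟨h1, fun h3 => h2 (Or.inl h3)⟩
        · exact Or.inr ⟨h1, fun h3 => h2 (Or.inr h3)⟩
      · rintro (⟨h1, h2⟩ | ⟨h1, h2⟩)
        · refine ⟨Or.inl h1, ?_⟩
          rintro (h3 | h3)
          · exact h2 h3
          · exact Set.disjoint_left.mp hdis h1 (hB2A h3)
        · refine ⟨Or.inr h1, ?_⟩
          rintro (h3 | h3)
          · exact Set.disjoint_left.mp hdis (hB1A h3) h1
          · exact h2 h3
    refine ⟨B1 ∪ B2, hB1.union hB2, ?_, ?_, ?_, ?_⟩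
    · rw [← hAu]; exact union_subset_union hB1A hB2A
    · rw [hcompl, measure_union hBdis hB2, measure_union hCdis (mA2.diff hB2), hB1m, hB2m]
    · rw [hcompl, h _ _ hB1 hB2 hBdis, h _ _ (mA1.diff hB1) (mA2.diff hB2) hCdis]
      have e : Λ B1 + Λ B2 - (Λ (A1 \ B1) + Λ (A2 \ B2)) =
          (Λ B1 - Λ (A1 \ B1)) + (Λ B2 - Λ (A2 \ B2)) := by abel
      rw [e]
      calc _ ≤ _ + _ := norm_add_le _ _
        _ < ε / 2 + ε / 2 := by linarith
        _ = ε := by ring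
    · have hint : ∀ C, IntegrableOn (fun ω => s ω) C μ := fun C =>
        (SimpleFunc.integrable_of_isFiniteMeasure s).integrableOn
      rw [hcompl, setIntegral_union hBdis hB2 (hint _) (hint _),
        setIntegral_union hCdis (mA2.diff hB2) (hint _) (hint _), hB2i]
      congr 1
      have e1 : ∫ ω in B1, s ω ∂μ = ∫ ω in B1, c ∂μ :=
        setIntegral_congr_fun hB1 fun ω hω => (hB1A hω).2
      have e2 : ∫ ω in A1 \ B1, s ω ∂μ = ∫ ω in A1 \ B1, c ∂μ :=
        setIntegral_congr_fun (mA1.diff hB1) fun ω hω => hω.1.2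
      rw [e1, e2, setIntegral_const, setIntegral_const]
      simp only [measureReal_def, hB1m]

/-- adding an integral to a halvable set function -/
lemma halve_pair {Λ : Set Ω → E} (h : Additive' Λ) (hH : Halvable μ Λ) {g : Ω → ℝ}
    (hg : Integrable g μ) :
    Halvable μ (fun A => (Λ A, ∫ ω in A, g ω ∂μ)) := by
  intro A hA ε hε
  obtain ⟨s, hs1, hs2⟩ := (memLp_one_iff_integrable.mpr hg).exists_simpleFunc_eLpNorm_sub_lt
    (by simp) (show ENNReal.ofReal (ε / 2) ≠ 0 by simp; linarith)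
  obtain ⟨B, hB, hBA, hBm, hBΛ, hBi⟩ := halve_simple h hH s s.range A hA
    (fun ω _ => s.mem_range_self ω) ε hε
  refine ⟨B, hB, hBA, hBm, ?_⟩
  have hsi : Integrable (fun ω => s ω) μ := SimpleFunc.integrable_of_isFiniteMeasure s
  have hgs : Integrable (fun ω => g ω - s ω) μ := hg.sub hsi
  have hL1 : ∫ ω, |g ω - s ω| ∂μ < ε / 2 := by
    have h1 : ENNReal.ofReal (∫ ω, ‖g ω - s ω‖ ∂μ) = eLpNorm (g - ⇑s) 1 μ := by
      rw [eLpNorm_one_eq_lintegral_enorm, ofReal_integral_norm_eq_lintegral_enorm hgs]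
      rfl
    rw [← h1] at hs1
    exact (ENNReal.ofReal_lt_ofReal_iff (by positivity)).mp hs1
  have habs : Integrable (fun ω => |g ω - s ω|) μ := hgs.abs
  have hdiff : ∀ C, MeasurableSet C → |∫ ω in C, g ω ∂μ - ∫ ω in C, s ω ∂μ| ≤
      ∫ ω in C, |g ω - s ω| ∂μ := by
    intro C _
    rw [← integral_sub hg.integrableOn hsi.integrableOn]
    exact abs_integral_le_integral_abs
  have hd1 := hdiff B hB
  have hd2 := hdiff (A \ B) (hA.diff hB)
  have hsum : ∫ ω in B, |g ω - s ω| ∂μ + ∫ ω in A \ B, |g ω - s ω| ∂μ ≤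
      ∫ ω, |g ω - s ω| ∂μ := by
    rw [← setIntegral_union disjoint_sdiff_right (hA.diff hB) habs.integrableOn
      habs.integrableOn]
    exact setIntegral_le_integral habs (Eventually.of_forall fun ω => abs_nonneg _)
  show ‖(Λ B - Λ (A \ B), ∫ ω in B, g ω ∂μ - ∫ ω in A \ B, g ω ∂μ)‖ < ε
  rw [Prod.norm_def, max_lt_iff]
  refine ⟨hBΛ, ?_⟩
  show ‖∫ ω in B, g ω ∂μ - ∫ ω in A \ B, g ω ∂μ‖ < ε
  rw [Real.norm_eq_abs]
  have e : ∫ ω in B, g ω ∂μ - ∫ ω in A \ B, g ω ∂μ =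
      (∫ ω in B, g ω ∂μ - ∫ ω in B, s ω ∂μ) -
        (∫ ω in A \ B, g ω ∂μ - ∫ ω in A \ B, s ω ∂μ) := by rw [hBi]; ring
  rw [e]
  calc _ ≤ _ + _ := abs_sub _ _
    _ ≤ ∫ ω, |g ω - s ω| ∂μ := by linarith
    _ < ε := by linarith

lemma additive_integral {g : Ω → ℝ} (hg : Integrable g μ) :
    Additive' (fun A => ∫ ω in A, g ω ∂μ) := fun _ _ _ hB hAB =>
  setIntegral_union hAB hB hg.integrableOn hg.integrableOn

lemma additive_pair {Λ : Set Ω → E} (h : Additive' Λ) {g : Ω → ℝ} (hg : Integrable g μ) :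
    Additive' (fun A => (Λ A, ∫ ω in A, g ω ∂μ)) := fun A B hA hB hAB =>
  Prod.ext (h A B hA hB hAB) (additive_integral hg A B hA hB hAB)

end Pool.Agent.K3h11.Nar
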