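import Pool.Agent.K3h11.Nar.Low
import Pool.Agent.K3h11.Nar.Sier

/-!
# Operators given by matrices on a partition
-/

set_option autoImplicit false
set_option linter.unusedSectionVars false

open MeasureTheory Set Filter Topology
open scoped ENNReal

namespace Pool.Agent.K3h11.Nar

open Pool.Agent.Y772.NI (numRadius numIndex bigM numRadius_nonneg)

variable {Ω : Type} [MeasurableSpace Ω] {μ : Measure Ω} [IsFiniteMeasure μ]
  {p : ℝ≥0∞} [Fact (1 ≤ p)]

/-- the restriction of `f` to `A`, extended by zero -/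
noncomputable def mi {A : Set Ω} (hA : MeasurableSet A) (f : Lp ℝ p μ) : Lp ℝ p μ :=
  MemLp.toLp (A.indicator f) (MemLp.indicator hA (Lp.memLp f))

lemma mi_ae {A : Set Ω} (hA : MeasurableSet A) (f : Lp ℝ p μ) :
    mi hA f =ᵐ[μ] A.indicator f :=
  MemLp.coeFn_toLp _

lemma mi_add {A : Set Ω} (hA : MeasurableSet A) (f g : Lp ℝ p μ) :
    mi hA (f + g) = mi hA f + mi hA g := by
  apply Lp.ext
  filter_upwards [mi_ae hA (f + g), mi_ae hA f, mi_ae hA g, Lp.coeFn_add (mi hA f) (mi hA g),
    Lp.coeFn_add f g] with ω h1 h2 h3 h4 h5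
  rw [h1, h4, Pi.add_apply, h2, h3]
  by_cases h : ω ∈ A
  · rw [indicator_of_mem h, indicator_of_mem h, indicator_of_mem h, h5, Pi.add_apply]
  · rw [indicator_of_notMem h, indicator_of_notMem h, indicator_of_notMem h, add_zero]

lemma mi_smul {A : Set Ω} (hA : MeasurableSet A) (c : ℝ) (f : Lp ℝ p μ) :
    mi hA (c • f) = c • mi hA f := by
  apply Lp.ext
  filter_upwards [mi_ae hA (c • f), mi_ae hA f, Lp.coeFn_smul c (mi hA f),
    Lp.coeFn_smul c f] with ω h1 h2 h3 h4
  rw [h1, h3, Pi.smul_apply, h2]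
  by_cases h : ω ∈ A
  · rw [indicator_of_mem h, indicator_of_mem h, h4, Pi.smul_apply]
  · rw [indicator_of_notMem h, indicator_of_notMem h, smul_zero]

lemma mi_norm {A : Set Ω} (hA : MeasurableSet A) (f : Lp ℝ p μ) : ‖mi hA f‖ ≤ 1 * ‖f‖ := by
  rw [one_mul]
  unfold mi
  rw [Lp.norm_toLp, Lp.norm_def]
  exact ENNReal.toReal_mono (Lp.memLp f).2.ne (eLpNorm_indicator_le _)

/-- multiplication by an indicator function as a linear map -/
noncomputable def miL (p : ℝ≥0∞) [Fact (1 ≤ p)] (μ : Measure Ω) [IsFiniteMeasure μ] {A : Set Ω}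
    (hA : MeasurableSet A) : Lp ℝ p μ →ₗ[ℝ] Lp ℝ p μ where
  toFun := mi hA
  map_add' := mi_add hA
  map_smul' := mi_smul hA

/-- multiplication by an indicator function -/
noncomputable def mulInd (p : ℝ≥0∞) [Fact (1 ≤ p)] (μ : Measure Ω) [IsFiniteMeasure μ] {A : Set Ω}
    (hA : MeasurableSet A) : Lp ℝ p μ →L[ℝ] Lp ℝ p μ :=
  (miL p μ hA).mkContinuous 1 (mi_norm hA)

lemma mulInd_ae {A : Set Ω} (hA : MeasurableSet A) (f : Lp ℝ p μ) :
    mulInd p μ hA f =ᵐ[μ] A.indicator f := mi_ae hA f

section Avg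

lemma J_intOn (h1 : 1 < p.toReal) (htop : p ≠ ∞) {A : Set Ω} (hA : MeasurableSet A)
    (f : Lp ℝ p μ) : IntegrableOn (fun ω => J p.toReal (f ω)) A μ := by
  have h2 := J_integrable_mul h1 htop f (indS p μ A)
  refine (h2.integrableOn (s := A)).congr ?_
  have h3 := ae_restrict_of_ae (s := A) (indS_ae (p := p) (μ := μ) hA)
  filter_upwards [h3, ae_restrict_mem hA] with ω h4 h5
  rw [h4, indicator_of_mem h5, mul_one]

/-- averaging an affine inequality over a set -/
lemma avg (h1 : 1 < p.toReal) (htop : p ≠ ∞) {A : Set Ω} (hA : MeasurableSet A) {w : ℝ}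
    (hw : 0 < w) (hAw : μ.real A = w) (f : Lp ℝ p μ) {a b c d : ℝ}
    (H : ∀ s : ℝ, 0 ≤ a * |s| ^ p.toReal + b * J p.toReal s + c * s + d) :
    0 ≤ a * ((∫ ω in A, |f ω| ^ p.toReal ∂μ) / w) + b * ((∫ ω in A, J p.toReal (f ω) ∂μ) / w) +
      c * ((∫ ω in A, f ω ∂μ) / w) + d := by
  have i1 : Integrable (fun ω => |f ω| ^ p.toReal) μ :=
    Pool.Agent.Y825.RK.integrable_rpow h1 htop f
  have i2 := J_intOn h1 htop hA f
  have i3 : Integrable (fun ω => f ω) μ := Lp_integrable f
  have j1 : Integrable (fun ω => a * |f ω| ^ p.toReal) (μ.restrict A) :=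
    i1.integrableOn.const_mul a
  have j2 : Integrable (fun ω => b * J p.toReal (f ω)) (μ.restrict A) := i2.const_mul b
  have j3 : Integrable (fun ω => c * f ω) (μ.restrict A) := i3.integrableOn.const_mul c
  have j12 : Integrable (fun ω => a * |f ω| ^ p.toReal + b * J p.toReal (f ω))
    (μ.restrict A) := j1.add j2
  have j123 : Integrable (fun ω => a * |f ω| ^ p.toReal + b * J p.toReal (f ω) + c * f ω)
    (μ.restrict A) := j12.add j3
  have key : 0 ≤ ∫ ω in A, (a * |f ω| ^ p.toReal + b * J p.toReal (f ω) + c * f ω + d) ∂μ :=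
    integral_nonneg fun ω => H (f ω)
  rw [integral_add j123 (integrable_const d), integral_add j12 j3, integral_add j1 j2,
    integral_const_mul, integral_const_mul, integral_const_mul, setIntegral_const, hAw,
    smul_eq_mul] at key
  have h2 := div_nonneg key hw.le
  refine h2.trans (le_of_eq ?_)
  field_simp

end Avg

section Iter

variable {ι : Type*} [Fintype ι] [DecidableEq ι]

/-- a quadratic-type expression -/
def Qf (a : ι → ℝ) (t : ι → ι → ℝ) (α σ m : ι → ℝ) : ℝ := ∑ i, a i * α i + Bf t σ m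

lemma Qf_affine (a : ι → ℝ) {t : ι → ι → ℝ} (ht : ∀ i, t i i = 0) (α σ m : ι → ℝ) (k : ι) :
    ∃ A B C D : ℝ, ∀ x y z : ℝ, Qf a t (Function.update α k x) (Function.update σ k y)
      (Function.update m k z) = A * x + B * y + C * z + D := by
  set σ0 := Function.update σ k 0 with hσ0
  set m0 := Function.update m k 0 with hm0
  refine ⟨a k, ∑ j, t k j * m0 j, ∑ l, σ0 l * t l k, ∑ i, a i * Function.update α k 0 i +
    Bf t σ0 m0, fun x y z => ?_⟩
  have e1 : Function.update σ k y = Function.update σ0 k (σ0 k + y) := by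
    rw [hσ0]; simp
  have e2 : Function.update m k z = Function.update m0 k (m0 k + z) := by
    rw [hm0]; simp
  unfold Qf
  rw [e1, e2, Bf_update_left, Bf_update_right]
  have e3 : ∑ j, t k j * Function.update m0 k (m0 k + z) j = ∑ j, t k j * m0 j := by
    refine Finset.sum_congr rfl fun j _ => ?_
    by_cases h : j = k
    · rw [h, ht]; ring
    · rw [Function.update_of_ne h]
  have e4 : ∑ i, a i * Function.update α k x i =
      a k * x + ∑ i, a i * Function.update α k 0 i := by
    have : ∀ i, a i * Function.update α k x i =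
        (if i = k then a k * x else 0) + a i * Function.update α k 0 i := by
      intro i
      by_cases h : i = k
      · subst h; simp
      · simp [h]
    rw [Finset.sum_congr rfl fun i _ => this i, Finset.sum_add_distrib]
    simp
  rw [e3, e4]
  ring

lemma iter {P : ℝ} (a : ι → ℝ) {t : ι → ι → ℝ} (ht : ∀ i, t i i = 0)
    (H : ∀ z : ι → ℝ, 0 ≤ Qf a t (fun i => |z i| ^ P) (fun i => J P (z i)) z)
    (Pb Sb Mb : ι → ℝ)
    (AV : ∀ i, ∀ a b c d : ℝ, (∀ s : ℝ, 0 ≤ a * |s| ^ P + b * J P s + c * s + d) →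
      0 ≤ a * Pb i + b * Sb i + c * Mb i + d) :
    0 ≤ Qf a t Pb Sb Mb := by
  have key : ∀ s : Finset ι, ∀ z : ι → ℝ, 0 ≤ Qf a t (fun i => if i ∈ s then Pb i else |z i| ^ P)
      (fun i => if i ∈ s then Sb i else J P (z i)) (fun i => if i ∈ s then Mb i else z i) := by
    intro s
    induction s using Finset.induction_on with
    | empty =>
      intro z
      simpa using H z
    | insert k s hk ih =>
      intro z
      obtain ⟨A, B, C, D, hABCD⟩ := Qf_affine a ht (fun i => if i ∈ s then Pb i else |z i| ^ P)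
        (fun i => if i ∈ s then Sb i else J P (z i)) (fun i => if i ∈ s then Mb i else z i) k
      have h2 : ∀ u : ℝ, 0 ≤ A * |u| ^ P + B * J P u + C * u + D := by
        intro u
        rw [← hABCD]
        have h3 := ih (Function.update z k u)
        have f1 : (fun i => if i ∈ s then Pb i else |Function.update z k u i| ^ P) =
            Function.update (fun i => if i ∈ s then Pb i else |z i| ^ P) k (|u| ^ P) := by
          funext i
          by_cases h : i = k
          · subst h; simp [hk]
          · simp [h]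
        have f2 : (fun i => if i ∈ s then Sb i else J P (Function.update z k u i)) =
            Function.update (fun i => if i ∈ s then Sb i else J P (z i)) k (J P u) := by
          funext i
          by_cases h : i = k
          · subst h; simp [hk]
          · simp [h]
        have f3 : (fun i => if i ∈ s then Mb i else Function.update z k u i) =
            Function.update (fun i => if i ∈ s then Mb i else z i) k u := by
          funext i
          by_cases h : i = k
          · subst h; simp [hk]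
          · simp [h]
        rw [f1, f2, f3] at h3
        exact h3
      have h4 := AV k A B C D h2
      rw [← hABCD] at h4
      have g1 : Function.update (fun i => if i ∈ s then Pb i else |z i| ^ P) k (Pb k) =
          (fun i => if i ∈ insert k s then Pb i else |z i| ^ P) := by
        funext i
        by_cases h : i = k
        · subst h; simp
        · simp [h]
      have g2 : Function.update (fun i => if i ∈ s then Sb i else J P (z i)) k (Sb k) =
          (fun i => if i ∈ insert k s then Sb i else J P (z i)) := by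
        funext i
        by_cases h : i = k
        · subst h; simp
        · simp [h]
      have g3 : Function.update (fun i => if i ∈ s then Mb i else z i) k (Mb k) =
          (fun i => if i ∈ insert k s then Mb i else z i) := by
        funext i
        by_cases h : i = k
        · subst h; simp
        · simp [h]
      rw [g1, g2, g3] at h4
      exact h4
  have := key Finset.univ 0
  simpa using this

/-- The operator attached to a matrix (off the diagonal, through averages) and a diagonal
(through multiplication). -/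
noncomputable def opT (p : ℝ≥0∞) [Fact (1 ≤ p)] (μ : Measure Ω) [IsFiniteMeasure μ] (w : ℝ)
    {A : ι → Set Ω} (hA : ∀ i, MeasurableSet (A i)) (t : ι → ι → ℝ) (d : ι → ℝ) :
    Lp ℝ p μ →L[ℝ] Lp ℝ p μ :=
  ∑ i, ∑ j, (t i j / w) • (sI p μ (A j)).smulRight (indS p μ (A i)) +
    ∑ i, d i • mulInd p μ (hA i)

lemma opT_apply (w : ℝ) {A : ι → Set Ω} (hA : ∀ i, MeasurableSet (A i)) (t : ι → ι → ℝ)
    (d : ι → ℝ) (f : Lp ℝ p μ) :
    opT p μ w hA t d f = ∑ i, ∑ j, (t i j / w) • ((∫ ω in A j, f ω ∂μ) • indS p μ (A i)) +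
      ∑ i, d i • mulInd p μ (hA i) f := by
  unfold opT
  simp only [_root_.add_apply, _root_.sum_apply, _root_.smul_apply,
    ContinuousLinearMap.smulRight_apply, sI_apply]

/-- the numerical radius of `opT` -/
lemma opT_radius (h1 : 1 < p.toReal) (htop : p ≠ ∞) {w v : ℝ} (hw : 0 < w)
    {A : ι → Set Ω} (hA : ∀ i, MeasurableSet (A i)) (hd : Pairwise fun i j => Disjoint (A i) (A j))
    (hAw : ∀ i, μ.real (A i) = w) (hv : 0 ≤ v)
    {t : ι → ι → ℝ} (ht : ∀ i, t i i = 0) (d : ι → ℝ)
    (H : ∀ z : ι → ℝ, |∑ i, d i * |z i| ^ p.toReal + Bf t (fun i => J p.toReal (z i)) z| ≤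
      v * ∑ i, |z i| ^ p.toReal) :
    numRadius ℝ (opT p μ w hA t d) ≤ v := by
  refine Real.sSup_le ?_ hv
  rintro _ ⟨f, φ, hf, hφ, hφf, rfl⟩
  set P := p.toReal with hP
  have hnorm : ∀ g : Lp ℝ p μ, φ g = ∫ ω, J P (f ω) * g ω ∂μ := by
    intro g
    rw [Pool.Agent.Y825.RK.norming h1 htop hf hφ hφf g]
    exact integral_congr_ae (ae_of_all _ fun ω => by
      show Pool.Agent.Y825.RK.J p.toReal (f ω) * g ω = J P (f ω) * g ω
      rw [RKJ])
  set Pb : ι → ℝ := fun i => (∫ ω in A i, |f ω| ^ P ∂μ) / w with hPb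
  set Sb : ι → ℝ := fun i => (∫ ω in A i, J P (f ω) ∂μ) / w with hSb
  set Mb : ι → ℝ := fun i => (∫ ω in A i, f ω ∂μ) / w with hMb
  have AV : ∀ i, ∀ a b c d : ℝ, (∀ s : ℝ, 0 ≤ a * |s| ^ P + b * J P s + c * s + d) →
      0 ≤ a * Pb i + b * Sb i + c * Mb i + d := fun i a b c d h =>
    avg h1 htop (hA i) hw (hAw i) f h
  have hval : φ (opT p μ w hA t d f) = w * (∑ i, d i * Pb i + Bf t Sb Mb) := by
    rw [opT_apply, map_add, map_sum, map_sum]
    have e1 : ∀ i, φ (∑ j, (t i j / w) • ((∫ ω in A j, f ω ∂μ) • indS p μ (A i))) =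
        ∑ j, w * (Sb i * t i j * Mb j) := by
      intro i
      rw [map_sum]
      refine Finset.sum_congr rfl fun j _ => ?_
      rw [map_smul, map_smul, smul_eq_mul, smul_eq_mul, hnorm]
      have e2 : ∫ ω, J P (f ω) * indS p μ (A i) ω ∂μ = ∫ ω in A i, J P (f ω) ∂μ := by
        rw [← integral_indicator (hA i)]
        apply integral_congr_ae
        filter_upwards [indS_ae (p := p) (μ := μ) (hA i)] with ω h2
        rw [h2]
        by_cases h : ω ∈ A i
        · rw [indicator_of_mem h, indicator_of_mem h, mul_one]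
        · rw [indicator_of_notMem h, indicator_of_notMem h, mul_zero]
      rw [e2, hSb, hMb]
      field_simp
    have e3 : ∀ i, φ (d i • mulInd p μ (hA i) f) = w * (d i * Pb i) := by
      intro i
      rw [map_smul, smul_eq_mul, hnorm]
      have e4 : ∫ ω, J P (f ω) * mulInd p μ (hA i) f ω ∂μ = ∫ ω in A i, |f ω| ^ P ∂μ := by
        rw [← integral_indicator (hA i)]
        apply integral_congr_ae
        filter_upwards [mulInd_ae (hA i) f] with ω h2
        rw [h2]
        by_cases h : ω ∈ A i
        · rw [indicator_of_mem h, indicator_of_mem h, J_mul_self h1]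
        · rw [indicator_of_notMem h, indicator_of_notMem h, mul_zero]
      rw [e4, hPb]
      field_simp
    rw [Finset.sum_congr rfl fun i _ => e1 i, Finset.sum_congr rfl fun i _ => e3 i]
    unfold Bf
    simp only [← Finset.mul_sum]
    ring
  have hPsum : w * ∑ i, Pb i ≤ 1 := by
    have e1 : w * ∑ i, Pb i = ∑ i, ∫ ω in A i, |f ω| ^ P ∂μ := by
      rw [Finset.mul_sum]
      exact Finset.sum_congr rfl fun i _ => by rw [hPb]; field_simp
    rw [e1]
    have i1 : Integrable (fun ω => |f ω| ^ P) μ := Pool.Agent.Y825.RK.integrable_rpow h1 htop f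
    rw [← integral_iUnion_fintype hA hd fun i => i1.integrableOn]
    have h3 : ∫ ω, |f ω| ^ P ∂μ = 1 := by
      rw [← norm_rpow' h1 htop, hf, Real.one_rpow]
    rw [← h3]
    exact setIntegral_le_integral i1 (Eventually.of_forall fun ω => by positivity)
  have up : 0 ≤ Qf (fun i => v - d i) (fun i j => -t i j) Pb Sb Mb := by
    refine iter _ (fun i => by rw [ht, neg_zero]) (fun z => ?_) Pb Sb Mb AV
    have h2 := (abs_le.mp (H z)).2
    unfold Qf Bf at *
    simp only [sub_mul, Finset.sum_sub_distrib, mul_neg, neg_mul, Finset.sum_neg_distrib,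
      ← Finset.mul_sum] at *
    linarith
  have lo : 0 ≤ Qf (fun i => v + d i) t Pb Sb Mb := by
    refine iter _ ht (fun z => ?_) Pb Sb Mb AV
    have h2 := (abs_le.mp (H z)).1
    unfold Qf Bf at *
    simp only [add_mul, Finset.sum_add_distrib, ← Finset.mul_sum] at *
    linarith
  have hPb0 : 0 ≤ ∑ i, Pb i := Finset.sum_nonneg fun i _ =>
    div_nonneg (integral_nonneg fun ω => by positivity) hw.le
  have hup : ∑ i, d i * Pb i + Bf t Sb Mb ≤ v * ∑ i, Pb i := by
    unfold Qf Bf at *
    simp only [sub_mul, Finset.sum_sub_distrib, mul_neg, neg_mul, Finset.sum_neg_distrib,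
      ← Finset.mul_sum] at *
    linarith
  have hlo : -(v * ∑ i, Pb i) ≤ ∑ i, d i * Pb i + Bf t Sb Mb := by
    unfold Qf Bf at *
    simp only [add_mul, Finset.sum_add_distrib, ← Finset.mul_sum] at *
    linarith
  rw [hval, Real.norm_eq_abs, abs_mul, abs_of_pos hw]
  calc w * |∑ i, d i * Pb i + Bf t Sb Mb| ≤ w * (v * ∑ i, Pb i) := by
        gcongr
        exact abs_le.mpr ⟨hlo, hup⟩
    _ = v * (w * ∑ i, Pb i) := by ring
    _ ≤ v * 1 := by gcongr
    _ = v := mul_one v

end Iter

end Pool.Agent.K3h11.Nar
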